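import Mathlib

open Filter Topology Set

namespace Pool.Agent.D0H87.CQ

/-- twice the signed area of the triangle with vertices a, b, x. -/
def br (a b x : ℝ × ℝ) : ℝ := (b.1 - a.1) * (x.2 - a.2) - (b.2 - a.2) * (x.1 - a.1)

/-- signed area of the closed polygonal line a b c d. -/
noncomputable def Fa (a b c d : ℝ × ℝ) : ℝ :=
  ((c.1 - a.1) * (d.2 - b.2) - (c.2 - a.2) * (d.1 - b.1)) / 2

/-- K lies weakly to the left of the four oriented edge lines. -/
def Circ (K : Set (ℝ × ℝ)) (a b c d : ℝ × ℝ) : Prop :=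
  ∀ x ∈ K, 0 ≤ br a b x ∧ 0 ≤ br b c x ∧ 0 ≤ br c d x ∧ 0 ≤ br d a x

def Mini (K : Set (ℝ × ℝ)) (a b c d : ℝ × ℝ) : Prop :=
  Circ K a b c d ∧ 0 < Fa a b c d ∧
    ∀ a' b' c' d', Circ K a' b' c' d' → 0 < Fa a' b' c' d' → Fa a b c d ≤ Fa a' b' c' d'

theorem br_sum (a b c d x : ℝ × ℝ) :
    br a b x + br b c x + br c d x + br d a x = 2 * Fa a b c d := by
  unfold br Fa; ring

theorem Fa_rot (a b c d : ℝ × ℝ) : Fa b c d a = Fa a b c d := by
  unfold Fa; ring

theorem Circ_rot {K : Set (ℝ × ℝ)} {a b c d : ℝ × ℝ} (h : Circ K a b c d) : Circ K b c d a := by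
  intro x hx
  obtain ⟨h1, h2, h3, h4⟩ := h x hx
  exact ⟨h2, h3, h4, h1⟩

theorem Mini_rot {K : Set (ℝ × ℝ)} {a b c d : ℝ × ℝ} (h : Mini K a b c d) : Mini K b c d a := by
  obtain ⟨h1, h2, h3⟩ := h
  refine ⟨Circ_rot h1, by rwa [Fa_rot], ?_⟩
  intro a' b' c' d' hc hF
  rw [Fa_rot]
  exact h3 a' b' c' d' hc hF

theorem br_cont (a b : ℝ × ℝ) : Continuous (fun x => br a b x) := by
  unfold br; fun_prop

/-- compactness: a small perturbation stays nonnegative. -/
theorem perturb {K : Set (ℝ × ℝ)} (hK : IsCompact K) {g0 g1 g2 : ℝ × ℝ → ℝ}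
    (c0 : Continuous g0) (c1 : Continuous g1) (c2 : Continuous g2)
    (h0 : ∀ x ∈ K, 0 ≤ g0 x) (h1 : ∀ x ∈ K, g0 x = 0 → 0 < g1 x) :
    ∀ᶠ t : ℝ in 𝓝[>] 0, ∀ x ∈ K, 0 ≤ g0 x + t * g1 x + t ^ 2 * g2 x := by
  rcases K.eq_empty_or_nonempty with rfl | hne
  · simp
  obtain ⟨z, hz, hzmin⟩ := hK.exists_isMinOn hne
    (f := fun x => max (g0 x) (g1 x)) (c0.max c1).continuousOn
  set m : ℝ := max (g0 z) (g1 z) with hm
  have hmpos : 0 < m := by
    rcases (h0 z hz).eq_or_lt with h | h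
    · exact lt_of_lt_of_le (h1 z hz h.symm) (le_max_right _ _)
    · exact lt_of_lt_of_le h (le_max_left _ _)
  have hmle : ∀ x ∈ K, m ≤ g0 x ∨ m ≤ g1 x := by
    intro x hx
    have := hzmin hx
    simp only [mem_ofPred_eq] at this
    exact le_max_iff.mp this
  obtain ⟨B1, hB1⟩ := (hK.image c1).isBounded.exists_norm_le
  obtain ⟨B2, hB2⟩ := (hK.image c2).isBounded.exists_norm_le
  set B : ℝ := max 1 (max B1 B2) with hB
  have hBpos : 0 < B := lt_of_lt_of_le one_pos (le_max_left _ _)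
  have hg1 : ∀ x ∈ K, |g1 x| ≤ B := fun x hx =>
    (hB1 _ (mem_image_of_mem _ hx)).trans ((le_max_left _ _).trans (le_max_right _ _))
  have hg2 : ∀ x ∈ K, |g2 x| ≤ B := fun x hx =>
    (hB2 _ (mem_image_of_mem _ hx)).trans ((le_max_right _ _).trans (le_max_right _ _))
  have hsmall : ∀ᶠ t : ℝ in 𝓝[>] 0, t < min 1 (m / (2 * B)) := by
    apply mem_nhdsWithin_of_mem_nhds
    exact Iio_mem_nhds (lt_min one_pos (by positivity))
  filter_upwards [hsmall, self_mem_nhdsWithin] with t ht htpos x hx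
  have htpos : 0 < t := htpos
  have ht1 : t < 1 := lt_of_lt_of_le ht (min_le_left _ _)
  have ht2 : t * (2 * B) < m := by
    have := lt_of_lt_of_le ht (min_le_right _ _)
    rwa [lt_div_iff₀ (by positivity)] at this
  have e1 := abs_le.mp (hg1 x hx)
  have e2 := abs_le.mp (hg2 x hx)
  rcases hmle x hx with h | h
  · have p1 : t * g1 x ≥ -(t * B) := by nlinarith
    have p2 : t ^ 2 * g2 x ≥ -(t * B) := by
      have h7 : t ^ 2 * g2 x ≥ t ^ 2 * (-B) := mul_le_mul_of_nonneg_left e2.1 (by positivity)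
      have h8 : t ^ 2 * B ≤ t * B := mul_le_mul_of_nonneg_right (by nlinarith) hBpos.le
      linarith
    linarith
  · have p0 := h0 x hx
    have p1 : t * g1 x ≥ t * m := mul_le_mul_of_nonneg_left h htpos.le
    have p2 : t ^ 2 * g2 x ≥ t ^ 2 * (-B) := mul_le_mul_of_nonneg_left e2.1 (by positivity)
    have p3 : t * m - t ^ 2 * B ≥ 0 := by nlinarith
    linarith

/-- first order optimality for rotating the side a b. -/
theorem key {K : Set (ℝ × ℝ)} (hK : IsCompact K) {a b c d : ℝ × ℝ} (h : Mini K a b c d)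
    (hc0 : br d a b ≠ 0) (hc1 : br a b c ≠ 0) (β γ : ℝ) (hβγ : β < γ) :
    ∃ x ∈ K, br a b x = 0 ∧
      (γ / br a b c) * ((c.1 - b.1) * (x.2 - a.2) - (c.2 - b.2) * (x.1 - a.1))
      - (β / br d a b) * (((a.1 - d.1) * (x.2 - a.2) - (a.2 - d.2) * (x.1 - a.1))
        + ((b.1 - a.1) * (a.2 - d.2) - (b.2 - a.2) * (a.1 - d.1))) ≤ 0 := by
  by_contra hcon
  push Not at hcon
  obtain ⟨hC, hF, hmin⟩ := h
  set σ : ℝ := β / br d a b with hσ
  set τ : ℝ := γ / br a b c with hτ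
  have hσ' : σ * br d a b = β := by rw [hσ]; field_simp
  have hτ' : τ * br a b c = γ := by rw [hτ]; field_simp
  have P := perturb hK (g0 := fun x => br a b x)
    (g1 := fun x => τ * ((c.1 - b.1) * (x.2 - a.2) - (c.2 - b.2) * (x.1 - a.1))
      - σ * (((a.1 - d.1) * (x.2 - a.2) - (a.2 - d.2) * (x.1 - a.1))
        + ((b.1 - a.1) * (a.2 - d.2) - (b.2 - a.2) * (a.1 - d.1))))
    (g2 := fun _ => -(σ * τ) * ((c.1 - b.1) * (a.2 - d.2) - (c.2 - b.2) * (a.1 - d.1)))
    (by unfold br; fun_prop) (by fun_prop) (by fun_prop)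
    (fun x hx => (hC x hx).1) (fun x hx hx0 => hcon x hx hx0)
  have e1 : ∀ᶠ t : ℝ in 𝓝[>] 0, 0 < 1 + t * σ := by
    apply mem_nhdsWithin_of_mem_nhds
    have : ContinuousAt (fun t : ℝ => 1 + t * σ) 0 := by fun_prop
    exact this.eventually (lt_mem_nhds (by simp))
  have e2 : ∀ᶠ t : ℝ in 𝓝[>] 0, 0 < 1 - t * τ := by
    apply mem_nhdsWithin_of_mem_nhds
    have : ContinuousAt (fun t : ℝ => 1 - t * τ) 0 := by fun_prop
    exact this.eventually (lt_mem_nhds (by simp))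
  set w : ℝ := σ * τ * ((a.1 - d.1) * (c.2 - b.2) - (a.2 - d.2) * (c.1 - b.1)) with hw
  have e3 : ∀ᶠ t : ℝ in 𝓝[>] 0, (β - γ) + t * w < 0 := by
    apply mem_nhdsWithin_of_mem_nhds
    have : ContinuousAt (fun t : ℝ => (β - γ) + t * w) 0 := by fun_prop
    exact this.eventually (gt_mem_nhds (by simp; linarith))
  have e4 : ∀ᶠ t : ℝ in 𝓝[>] 0, 0 < 2 * Fa a b c d + t * (β - γ) + t ^ 2 * w := by
    apply mem_nhdsWithin_of_mem_nhds
    have : ContinuousAt (fun t : ℝ => 2 * Fa a b c d + t * (β - γ) + t ^ 2 * w) 0 := by fun_prop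
    exact this.eventually (lt_mem_nhds (by simp; linarith))
  have e5 : ∀ᶠ t : ℝ in 𝓝[>] 0, 0 < t := self_mem_nhdsWithin
  obtain ⟨t, ⟨⟨⟨⟨⟨hP, h1⟩, h2⟩, h3⟩, h4⟩, h5⟩⟩ :=
    (((((P.and e1).and e2).and e3).and e4).and e5).exists
  set a' : ℝ × ℝ := (a.1 + (t * σ) * (a.1 - d.1), a.2 + (t * σ) * (a.2 - d.2)) with ha'
  set b' : ℝ × ℝ := (b.1 + (t * τ) * (c.1 - b.1), b.2 + (t * τ) * (c.2 - b.2)) with hb'
  have hFa' : 2 * Fa a' b' c d = 2 * Fa a b c d + t * (β - γ) + t ^ 2 * w := by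
    rw [← hσ', ← hτ', hw, ha', hb']
    unfold Fa br
    ring
  have hCirc : Circ K a' b' c d := by
    intro x hx
    obtain ⟨q1, q2, q3, q4⟩ := hC x hx
    refine ⟨?_, ?_, q3, ?_⟩
    · have := hP x hx
      have e : br a' b' x = br a b x + t * (τ * ((c.1 - b.1) * (x.2 - a.2) - (c.2 - b.2) * (x.1 - a.1))
      - σ * (((a.1 - d.1) * (x.2 - a.2) - (a.2 - d.2) * (x.1 - a.1))
        + ((b.1 - a.1) * (a.2 - d.2) - (b.2 - a.2) * (a.1 - d.1)))) + t ^ 2 * (-(σ * τ) * ((c.1 - b.1) * (a.2 - d.2) - (c.2 - b.2) * (a.1 - d.1))) := by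
        rw [ha', hb']; unfold br; ring
      rw [e]; exact this
    · have e : br b' c x = (1 - t * τ) * br b c x := by
        rw [hb']; unfold br; ring
      rw [e]; exact mul_nonneg h2.le q2
    · have e : br d a' x = (1 + t * σ) * br d a x := by
        rw [ha']; unfold br; ring
      rw [e]; exact mul_nonneg h1.le q4
  have hlt : Fa a' b' c d < Fa a b c d := by nlinarith
  have := hmin a' b' c d hCirc (by linarith)
  linarith

theorem mid_mem {K : Set (ℝ × ℝ)} (hK : IsCompact K) (hconv : Convex ℝ K) {a b c d : ℝ × ℝ}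
    (h : Mini K a b c d) (hc0 : br d a b ≠ 0) (hc1 : br a b c ≠ 0) :
    ((a.1 + b.1) / 2, (a.2 + b.2) / 2) ∈ K := by
  set N : ℝ := (b.1 - a.1) ^ 2 + (b.2 - a.2) ^ 2 with hN
  have hNpos : 0 < N := by
    rcases eq_or_ne (b.1 - a.1) 0 with h1 | h1
    · rcases eq_or_ne (b.2 - a.2) 0 with h2 | h2
      · exfalso; apply hc1; unfold br; rw [h1, h2]; ring
      · have : 0 < (b.2 - a.2) ^ 2 := by positivity
        rw [hN]; nlinarith [sq_nonneg (b.1 - a.1)]
    · have : 0 < (b.1 - a.1) ^ 2 := by positivity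
      rw [hN]; nlinarith [sq_nonneg (b.2 - a.2)]
  let μ : ℝ × ℝ → ℝ := fun x => ((x.1 - a.1) * (b.1 - a.1) + (x.2 - a.2) * (b.2 - a.2)) / N
  have hμc : Continuous μ := by fun_prop
  have hline : ∀ x, br a b x = 0 →
      x.1 - a.1 = μ x * (b.1 - a.1) ∧ x.2 - a.2 = μ x * (b.2 - a.2) := by
    intro x hx
    have hx' : (b.1 - a.1) * (x.2 - a.2) = (b.2 - a.2) * (x.1 - a.1) := by
      unfold br at hx; linarith
    constructor
    · show _ = ((x.1 - a.1) * (b.1 - a.1) + (x.2 - a.2) * (b.2 - a.2)) / N * (b.1 - a.1)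
      rw [div_mul_eq_mul_div, eq_div_iff hNpos.ne', hN]
      linear_combination (-(b.2 - a.2)) * hx'
    · show _ = ((x.1 - a.1) * (b.1 - a.1) + (x.2 - a.2) * (b.2 - a.2)) / N * (b.2 - a.2)
      rw [div_mul_eq_mul_div, eq_div_iff hNpos.ne', hN]
      linear_combination ((b.1 - a.1)) * hx'
  have hval : ∀ x, br a b x = 0 → ∀ β γ : ℝ,
      (γ / br a b c) * ((c.1 - b.1) * (x.2 - a.2) - (c.2 - b.2) * (x.1 - a.1))
      - (β / br d a b) * (((a.1 - d.1) * (x.2 - a.2) - (a.2 - d.2) * (x.1 - a.1))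
        + ((b.1 - a.1) * (a.2 - d.2) - (b.2 - a.2) * (a.1 - d.1)))
      = - γ * μ x + β * (1 - μ x) := by
    intro x hx β γ
    obtain ⟨h1, h2⟩ := hline x hx
    rw [h1, h2]
    have k1 : (c.1 - b.1) * (μ x * (b.2 - a.2)) - (c.2 - b.2) * (μ x * (b.1 - a.1))
        = - μ x * br a b c := by unfold br; ring
    have k2 : ((a.1 - d.1) * (μ x * (b.2 - a.2)) - (a.2 - d.2) * (μ x * (b.1 - a.1))
        + ((b.1 - a.1) * (a.2 - d.2) - (b.2 - a.2) * (a.1 - d.1)))
        = - (1 - μ x) * br d a b := by unfold br; ring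
    rw [k1, k2]
    field_simp
    ring
  have hLc : IsCompact (K ∩ {x | br a b x = 0}) :=
    hK.inter_right (isClosed_eq (br_cont a b) continuous_const)
  -- there are points of the contact set with large and with small parameter
  have hbig : ∀ ε : ℝ, 0 < ε → ε < 1 → ∃ x ∈ K ∩ {x | br a b x = 0}, (1 - ε) / 2 ≤ μ x := by
    intro ε h0 h1
    obtain ⟨x, hx, hx0, hx1⟩ := key hK h hc0 hc1 (1 - ε) 1 (by linarith)
    rw [hval x hx0] at hx1
    refine ⟨x, ⟨hx, hx0⟩, ?_⟩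
    nlinarith
  have hsmall : ∀ ε : ℝ, 0 < ε → ε < 1 → ∃ x ∈ K ∩ {x | br a b x = 0}, μ x ≤ (1 + ε) / 2 := by
    intro ε h0 h1
    obtain ⟨x, hx, hx0, hx1⟩ := key hK h hc0 hc1 (-1) (-(1 - ε)) (by linarith)
    rw [hval x hx0] at hx1
    refine ⟨x, ⟨hx, hx0⟩, ?_⟩
    nlinarith
  have hne : (K ∩ {x | br a b x = 0}).Nonempty := by
    obtain ⟨x, hx, _⟩ := hbig (1/2) (by norm_num) (by norm_num)
    exact ⟨x, hx⟩
  obtain ⟨y, hy, hymax⟩ := hLc.exists_isMaxOn hne (f := μ) hμc.continuousOn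
  obtain ⟨z, hz, hzmin⟩ := hLc.exists_isMinOn hne (f := μ) hμc.continuousOn
  have hy2 : 1 / 2 ≤ μ y := by
    by_contra hlt
    push Not at hlt
    obtain ⟨x, hx, hx1⟩ := hbig (min (1/2) (1/2 - μ y)) (by
      apply lt_min (by norm_num) (by linarith)) (lt_of_le_of_lt (min_le_left _ _) (by norm_num))
    have h3 : μ x ≤ μ y := hymax hx
    have h4 : min (1/2) (1/2 - μ y) ≤ 1/2 - μ y := min_le_right _ _
    have h5 : min (1/2) (1/2 - μ y) ≤ 1/2 - μ y := min_le_right _ _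
    linarith
  have hz2 : μ z ≤ 1 / 2 := by
    by_contra hlt
    push Not at hlt
    obtain ⟨x, hx, hx1⟩ := hsmall (min (1/2) (μ z - 1/2)) (by
      apply lt_min (by norm_num) (by linarith)) (lt_of_le_of_lt (min_le_left _ _) (by norm_num))
    have h3 : μ z ≤ μ x := hzmin hx
    have h4 : min (1/2) (μ z - 1/2) ≤ μ z - 1/2 := min_le_right _ _
    linarith
  obtain ⟨y1, y2⟩ := hline y hy.2
  obtain ⟨z1, z2⟩ := hline z hz.2
  rcases eq_or_ne (μ y) (μ z) with he | hne'
  · have hyh : μ y = 1 / 2 := by linarith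
    have : ((a.1 + b.1) / 2, (a.2 + b.2) / 2) = y := by
      rw [hyh] at y1 y2
      apply Prod.ext
      · show (a.1 + b.1) / 2 = y.1
        linarith
      · show (a.2 + b.2) / 2 = y.2
        linarith
    rw [this]; exact hy.1
  · have hgt : 0 < μ y - μ z := by
      rcases lt_or_gt_of_ne hne' with h1 | h1
      · linarith
      · linarith
    have := hconv hy.1 hz.1 (a := (1/2 - μ z) / (μ y - μ z)) (b := (μ y - 1/2) / (μ y - μ z))
      (div_nonneg (by linarith) hgt.le) (div_nonneg (by linarith) hgt.le)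
      (by rw [← add_div, div_eq_one_iff_eq hgt.ne']; ring)
    convert this using 1
    have ya : y.1 = a.1 + μ y * (b.1 - a.1) := by linarith
    have yb : y.2 = a.2 + μ y * (b.2 - a.2) := by linarith
    have za : z.1 = a.1 + μ z * (b.1 - a.1) := by linarith
    have zb : z.2 = a.2 + μ z * (b.2 - a.2) := by linarith
    apply Prod.ext
    · simp only [Prod.fst_add, Prod.smul_fst, smul_eq_mul]
      rw [ya, za]; field_simp; ring
    · simp only [Prod.snd_add, Prod.smul_snd, smul_eq_mul]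
      rw [yb, zb]; field_simp; ring

/-- a minimal triangle (with a doubled vertex a) has a in K. -/
theorem tri_mem {K : Set (ℝ × ℝ)} (hK : IsCompact K) {a b c : ℝ × ℝ}
    (h : Mini K a a b c) : a ∈ K := by
  by_contra ha
  obtain ⟨hC, hF, hmin⟩ := h
  have hD : 0 < br a b c := by
    have : br a b c = 2 * Fa a a b c := by unfold br Fa; ring
    rw [this]; linarith
  have hpos : ∀ x ∈ K, 0 < br a b x + br c a x := by
    intro x hx
    obtain ⟨q1, q2, q3, q4⟩ := hC x hx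
    rcases q2.eq_or_lt with e1 | e1
    · rcases q4.eq_or_lt with e2 | e2
      · exfalso
        apply ha
        have e1' : (b.1 - a.1) * (x.2 - a.2) - (b.2 - a.2) * (x.1 - a.1) = 0 := by
          unfold br at e1; linarith
        have e2' : (c.1 - a.1) * (x.2 - a.2) - (c.2 - a.2) * (x.1 - a.1) = 0 := by
          unfold br at e2; linarith
        have hD' : 0 < (b.1 - a.1) * (c.2 - a.2) - (b.2 - a.2) * (c.1 - a.1) := by
          unfold br at hD; linarith
        have k1 : (x.1 - a.1) * ((b.1 - a.1) * (c.2 - a.2) - (b.2 - a.2) * (c.1 - a.1)) = 0 := by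
          linear_combination (c.1 - a.1) * e1' - (b.1 - a.1) * e2'
        have k2 : (x.2 - a.2) * ((b.1 - a.1) * (c.2 - a.2) - (b.2 - a.2) * (c.1 - a.1)) = 0 := by
          linear_combination (c.2 - a.2) * e1' - (b.2 - a.2) * e2'
        have l1 : x.1 - a.1 = 0 := by
          rcases mul_eq_zero.mp k1 with h | h
          · exact h
          · linarith
        have l2 : x.2 - a.2 = 0 := by
          rcases mul_eq_zero.mp k2 with h | h
          · exact h
          · linarith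
        have : a = x := Prod.ext (by linarith) (by linarith)
        rw [this]; exact hx
      · linarith
    · linarith
  have P := perturb hK (g0 := fun x => br a b x + br c a x) (g1 := fun _ => - br a b c)
    (g2 := fun _ => 0) (by unfold br; fun_prop) (by fun_prop) (by fun_prop)
    (fun x hx => (hpos x hx).le) (fun x hx hx0 => absurd hx0 (hpos x hx).ne')
  have e1 : ∀ᶠ t : ℝ in 𝓝[>] 0, t < 1 := by
    apply mem_nhdsWithin_of_mem_nhds
    exact Iio_mem_nhds one_pos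
  have e5 : ∀ᶠ t : ℝ in 𝓝[>] 0, 0 < t := self_mem_nhdsWithin
  obtain ⟨t, ⟨⟨hP, h1⟩, h5⟩⟩ := ((P.and e1).and e5).exists
  set a' : ℝ × ℝ := (a.1 + t * (c.1 - a.1), a.2 + t * (c.2 - a.2)) with ha'
  set b' : ℝ × ℝ := (a.1 + t * (b.1 - a.1), a.2 + t * (b.2 - a.2)) with hb'
  have hFa' : Fa a' b' b c = (1 - t ^ 2) * Fa a a b c := by
    rw [ha', hb']; unfold Fa; ring
  have hCirc : Circ K a' b' b c := by
    intro x hx
    obtain ⟨q1, q2, q3, q4⟩ := hC x hx
    refine ⟨?_, ?_, q3, ?_⟩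
    · have e : br a' b' x = t * ((br a b x + br c a x) + t * (- br a b c) + t ^ 2 * 0) := by
        rw [ha', hb']; unfold br; ring
      rw [e]; exact mul_nonneg h5.le (hP x hx)
    · have e : br b' b x = (1 - t) * br a b x := by
        rw [hb']; unfold br; ring
      rw [e]; exact mul_nonneg (by linarith) q2
    · have e : br c a' x = (1 - t) * br c a x := by
        rw [ha']; unfold br; ring
      rw [e]; exact mul_nonneg (by linarith) q4
  have ht2 : 0 < 1 - t ^ 2 := by nlinarith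
  have := hmin a' b' b c hCirc (by rw [hFa']; positivity)
  rw [hFa'] at this
  nlinarith [sq_nonneg t, mul_pos (pow_pos h5 2) hF]

end Pool.Agent.D0H87.CQ
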