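import Pool.Agent.D0H87.CQ.A1

open Filter Topology Set

namespace Pool.Agent.D0H87.CQ

/-- K contains the sup-norm ball of radius r about o. -/
def HasBall (K : Set (ℝ × ℝ)) (o : ℝ × ℝ) (r : ℝ) : Prop :=
  0 < r ∧ ∀ x : ℝ × ℝ, |x.1 - o.1| ≤ r → |x.2 - o.2| ≤ r → x ∈ K

/-- ell-one length of the segment a b. -/
def len (a b : ℝ × ℝ) : ℝ := |b.1 - a.1| + |b.2 - a.2|

theorem len_nonneg (a b : ℝ × ℝ) : 0 ≤ len a b := by unfold len; positivity

theorem br_ge_len {K : Set (ℝ × ℝ)} {o : ℝ × ℝ} {r : ℝ} (hB : HasBall K o r) {a b : ℝ × ℝ}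
    (h : ∀ x ∈ K, 0 ≤ br a b x) : r * len a b ≤ br a b o := by
  obtain ⟨hr, hB⟩ := hB
  have hr0 := hr.le
  have habs : |r| ≤ r := by rw [abs_of_pos hr]
  have habs' : |-r| ≤ r := by rw [abs_neg, abs_of_pos hr]
  have h1 := h (o.1 + r, o.2 + r) (hB _ (by simpa using habs) (by simpa using habs))
  have h2 := h (o.1 + r, o.2 - r) (hB _ (by simpa using habs) (by
    have : (o.2 - r) - o.2 = -r := by ring
    show |(o.2 - r) - o.2| ≤ r
    rw [this]; exact habs'))
  have h3 := h (o.1 - r, o.2 + r) (hB _ (by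
    have : (o.1 - r) - o.1 = -r := by ring
    show |(o.1 - r) - o.1| ≤ r
    rw [this]; exact habs') (by simpa using habs))
  have h4 := h (o.1 - r, o.2 - r) (hB _ (by
    have : (o.1 - r) - o.1 = -r := by ring
    show |(o.1 - r) - o.1| ≤ r
    rw [this]; exact habs') (by
    have : (o.2 - r) - o.2 = -r := by ring
    show |(o.2 - r) - o.2| ≤ r
    rw [this]; exact habs'))
  unfold br at h1 h2 h3 h4 ⊢
  unfold len
  simp only at h1 h2 h3 h4
  rcases abs_cases (b.1 - a.1) with ⟨e1, _⟩ | ⟨e1, _⟩ <;>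
  rcases abs_cases (b.2 - a.2) with ⟨e2, _⟩ | ⟨e2, _⟩ <;> rw [e1, e2] <;> nlinarith

/-- perimeter bound. -/
theorem per_le {K : Set (ℝ × ℝ)} {o : ℝ × ℝ} {r : ℝ} (hB : HasBall K o r) {a b c d : ℝ × ℝ}
    (h : Circ K a b c d) : r * (len a b + len b c + len c d + len d a) ≤ 2 * Fa a b c d := by
  rw [← br_sum a b c d o]
  have h1 := br_ge_len hB (fun x hx => (h x hx).1)
  have h2 := br_ge_len hB (fun x hx => (h x hx).2.1)
  have h3 := br_ge_len hB (fun x hx => (h x hx).2.2.1)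
  have h4 := br_ge_len hB (fun x hx => (h x hx).2.2.2)
  nlinarith

theorem cross_le (p q s t : ℝ) : p * t - q * s ≤ (|p| + |q|) * (|s| + |t|) := by
  have h1 : p * t ≤ |p| * |t| := by rw [← abs_mul]; exact le_abs_self _
  have h2 : -(q * s) ≤ |q| * |s| := by rw [← abs_mul]; exact neg_le_abs _
  have h3 : 0 ≤ |p| * |s| := by positivity
  have h4 : 0 ≤ |q| * |t| := by positivity
  nlinarith

/-- a nonconstant circumscribed quadruple has perimeter at least r. -/
theorem per_ge {K : Set (ℝ × ℝ)} {o : ℝ × ℝ} {r : ℝ} (hB : HasBall K o r) {a b c d : ℝ × ℝ}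
    (h : Circ K a b c d) (hF : 0 < Fa a b c d) :
    r ≤ len a b + len b c + len c d + len d a := by
  set L := len a b + len b c + len c d + len d a with hL
  have n1 := len_nonneg a b
  have n2 := len_nonneg b c
  have n3 := len_nonneg c d
  have n4 := len_nonneg d a
  have hLpos : 0 < L := by
    by_contra hcon
    push Not at hcon
    have z1 : len a b = 0 := by linarith
    have z2 : len b c = 0 := by linarith
    have z3 : len c d = 0 := by linarith
    unfold len at z1 z2 z3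
    have y1 : |b.1 - a.1| = 0 := by linarith [abs_nonneg (b.1 - a.1), abs_nonneg (b.2 - a.2)]
    have y2 : |b.2 - a.2| = 0 := by linarith [abs_nonneg (b.1 - a.1), abs_nonneg (b.2 - a.2)]
    have y3 : |c.1 - b.1| = 0 := by linarith [abs_nonneg (c.1 - b.1), abs_nonneg (c.2 - b.2)]
    have y4 : |c.2 - b.2| = 0 := by linarith [abs_nonneg (c.1 - b.1), abs_nonneg (c.2 - b.2)]
    rw [abs_eq_zero] at y1 y2 y3 y4
    have : Fa a b c d = 0 := by
      unfold Fa
      rw [show c.1 - a.1 = 0 by linarith, show c.2 - a.2 = 0 by linarith]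
      ring
    linarith
  have h1 := per_le hB h
  have h2 : 2 * Fa a b c d ≤ L * L := by
    have e : 2 * Fa a b c d = (b.1 - a.1) * (c.2 - b.2) - (b.2 - a.2) * (c.1 - b.1)
        + ((c.1 - a.1) * (d.2 - c.2) - (c.2 - a.2) * (d.1 - c.1)) := by
      unfold Fa; ring
    have f1 := cross_le (b.1 - a.1) (b.2 - a.2) (c.1 - b.1) (c.2 - b.2)
    have f2 := cross_le (c.1 - a.1) (c.2 - a.2) (d.1 - c.1) (d.2 - c.2)
    have g1 : (|b.1 - a.1| + |b.2 - a.2|) * (|c.1 - b.1| + |c.2 - b.2|) = len a b * len b c := rfl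
    have g2 : (|c.1 - a.1| + |c.2 - a.2|) * (|d.1 - c.1| + |d.2 - c.2|) = len a c * len c d := rfl
    have g3 : len a c ≤ len a b + len b c := by
      unfold len
      have := abs_add_le (b.1 - a.1) (c.1 - b.1)
      have := abs_add_le (b.2 - a.2) (c.2 - b.2)
      rw [show b.1 - a.1 + (c.1 - b.1) = c.1 - a.1 by ring] at *
      rw [show b.2 - a.2 + (c.2 - b.2) = c.2 - a.2 by ring] at *
      linarith
    have g4 : len a c * len c d ≤ (len a b + len b c) * len c d :=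
      mul_le_mul_of_nonneg_right g3 n3
    have g5 : len a b * len b c + (len a b + len b c) * len c d ≤ L * L := by
      rw [hL]; nlinarith [mul_nonneg n1 n2, mul_nonneg n1 n3, mul_nonneg n2 n3, mul_nonneg n1 n4,
        mul_nonneg n2 n4, mul_nonneg n3 n4]
    linarith
  have h3 : r * L ≤ L * L := h1.trans h2
  exact le_of_mul_le_mul_right h3 hLpos

/-- a nonconstant circumscribed quadruple has area at least r^2/2. -/
theorem Fa_ge {K : Set (ℝ × ℝ)} {o : ℝ × ℝ} {r : ℝ} (hB : HasBall K o r) {a b c d : ℝ × ℝ}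
    (h : Circ K a b c d) (hF : 0 < Fa a b c d) : r ^ 2 / 2 ≤ Fa a b c d := by
  have h1 := per_le hB h
  have h2 := per_ge hB h hF
  have h3 : r * r ≤ r * (len a b + len b c + len c d + len d a) :=
    mul_le_mul_of_nonneg_left h2 hB.1.le
  nlinarith

theorem abs_cross_le (p q s t : ℝ) : |p * t - q * s| ≤ (|p| + |q|) * (|s| + |t|) := by
  rw [abs_le]
  constructor
  · have := cross_le q p t s
    have e : q * s - p * t = -(p * t - q * s) := by ring
    rw [e] at this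
    have e2 : (|q| + |p|) * (|t| + |s|) = (|p| + |q|) * (|s| + |t|) := by ring
    linarith
  · exact cross_le p q s t

/-- position bound for the first vertex. -/
theorem pos_bound {K : Set (ℝ × ℝ)} {o : ℝ × ℝ} {r : ℝ} (hB : HasBall K o r) {a b c d : ℝ × ℝ}
    (h : Circ K a b c d) {δ L : ℝ} (hδ : 0 < δ) (hF : δ ≤ Fa a b c d)
    (hL : len a b + len b c + len c d + len d a ≤ L) :
    |a.1 - o.1| ≤ 6 * L ^ 3 / δ ∧ |a.2 - o.2| ≤ 6 * L ^ 3 / δ := by
  have n1 := len_nonneg a b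
  have n2 := len_nonneg b c
  have n3 := len_nonneg c d
  have n4 := len_nonneg d a
  have L0 : 0 ≤ L := by linarith
  -- the four cross products of a - o with the edges
  set A1 := a.1 - o.1 with hA1
  set A2 := a.2 - o.2 with hA2
  have k0 : 0 ≤ A1 * (b.2 - a.2) - A2 * (b.1 - a.1) := by
    have := br_ge_len hB (fun x hx => (h x hx).1)
    have e : br a b o = A1 * (b.2 - a.2) - A2 * (b.1 - a.1) := by rw [hA1, hA2]; unfold br; ring
    rw [← e]; nlinarith [hB.1]
  have k3 : 0 ≤ A1 * (a.2 - d.2) - A2 * (a.1 - d.1) := by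
    have := br_ge_len hB (fun x hx => (h x hx).2.2.2)
    have e : br d a o = A1 * (a.2 - d.2) - A2 * (a.1 - d.1) := by rw [hA1, hA2]; unfold br; ring
    rw [← e]; nlinarith [hB.1]
  have k1 : -(L * L) ≤ A1 * (c.2 - b.2) - A2 * (c.1 - b.1) := by
    have h5 := br_ge_len hB (fun x hx => (h x hx).2.1)
    have e : br b c o = A1 * (c.2 - b.2) - A2 * (c.1 - b.1)
      + ((b.1 - a.1) * (c.2 - b.2) - (b.2 - a.2) * (c.1 - b.1)) := by
      rw [hA1, hA2]; unfold br; ring
    have f := cross_le (b.1 - a.1) (b.2 - a.2) (c.1 - b.1) (c.2 - b.2)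
    have g1 : (|b.1 - a.1| + |b.2 - a.2|) * (|c.1 - b.1| + |c.2 - b.2|) = len a b * len b c := rfl
    have g2 : len a b * len b c ≤ L * L := mul_le_mul (by linarith) (by linarith) n2 L0
    have g3 : 0 ≤ r * len b c := mul_nonneg hB.1.le n2
    rw [e] at h5; linarith
  have k2 : -(L * L) ≤ A1 * (d.2 - c.2) - A2 * (d.1 - c.1) := by
    have h5 := br_ge_len hB (fun x hx => (h x hx).2.2.1)
    have e : br c d o = A1 * (d.2 - c.2) - A2 * (d.1 - c.1)
      + ((a.1 - d.1) * (c.2 - d.2) - (a.2 - d.2) * (c.1 - d.1)) := by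
      rw [hA1, hA2]; unfold br; ring
    have f := cross_le (a.1 - d.1) (a.2 - d.2) (c.1 - d.1) (c.2 - d.2)
    have g1 : (|a.1 - d.1| + |a.2 - d.2|) * (|c.1 - d.1| + |c.2 - d.2|) = len d a * len c d := by
      unfold len; rw [abs_sub_comm c.1 d.1, abs_sub_comm c.2 d.2]
    have g2 : len d a * len c d ≤ L * L := mul_le_mul (by linarith) (by linarith) n3 L0
    have g3 : 0 ≤ r * len c d := mul_nonneg hB.1.le n3
    rw [e] at h5; linarith
  -- hence bounds with e = c - a, f = d - b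
  set E := A1 * (c.2 - a.2) - A2 * (c.1 - a.1) with hE
  set G := A1 * (d.2 - b.2) - A2 * (d.1 - b.1) with hG
  have eE : E = (A1 * (b.2 - a.2) - A2 * (b.1 - a.1)) + (A1 * (c.2 - b.2) - A2 * (c.1 - b.1)) := by
    rw [hE]; ring
  have eE' : E = -(A1 * (d.2 - c.2) - A2 * (d.1 - c.1)) - (A1 * (a.2 - d.2) - A2 * (a.1 - d.1)) := by
    rw [hE]; ring
  have eG : G = (A1 * (c.2 - b.2) - A2 * (c.1 - b.1)) + (A1 * (d.2 - c.2) - A2 * (d.1 - c.1)) := by
    rw [hG]; ring
  have eG' : G = -(A1 * (a.2 - d.2) - A2 * (a.1 - d.1)) - (A1 * (b.2 - a.2) - A2 * (b.1 - a.1)) := by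
    rw [hG]; ring
  have sLL : 0 ≤ L * L := mul_nonneg L0 L0
  have sE : |E| ≤ 2 * (L * L) := by
    rw [abs_le]; constructor
    · rw [eE]; linarith
    · rw [eE']; linarith
  have sG : |G| ≤ 2 * (L * L) := by
    rw [abs_le]; constructor
    · rw [eG]; linarith
    · rw [eG']; linarith
  have le1 : |c.1 - a.1| ≤ L := by
    have : c.1 - a.1 = (b.1 - a.1) + (c.1 - b.1) := by ring
    rw [this]
    have := abs_add_le (b.1 - a.1) (c.1 - b.1)
    unfold len at *
    linarith [abs_nonneg (b.2 - a.2), abs_nonneg (c.2 - b.2)]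
  have le2 : |c.2 - a.2| ≤ L := by
    have : c.2 - a.2 = (b.2 - a.2) + (c.2 - b.2) := by ring
    rw [this]
    have := abs_add_le (b.2 - a.2) (c.2 - b.2)
    unfold len at *
    linarith [abs_nonneg (b.1 - a.1), abs_nonneg (c.1 - b.1)]
  have le3 : |d.1 - b.1| ≤ L := by
    have : d.1 - b.1 = (c.1 - b.1) + (d.1 - c.1) := by ring
    rw [this]
    have := abs_add_le (c.1 - b.1) (d.1 - c.1)
    unfold len at *
    linarith [abs_nonneg (c.2 - b.2), abs_nonneg (d.2 - c.2)]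
  have le4 : |d.2 - b.2| ≤ L := by
    have : d.2 - b.2 = (c.2 - b.2) + (d.2 - c.2) := by ring
    rw [this]
    have := abs_add_le (c.2 - b.2) (d.2 - c.2)
    unfold len at *
    linarith [abs_nonneg (c.1 - b.1), abs_nonneg (d.1 - c.1)]
  have id1 : A1 * (2 * Fa a b c d) = G * (c.1 - a.1) - E * (d.1 - b.1) := by
    rw [hE, hG]; unfold Fa; ring
  have id2 : A2 * (2 * Fa a b c d) = G * (c.2 - a.2) - E * (d.2 - b.2) := by
    rw [hE, hG]; unfold Fa; ring
  have LL : 0 ≤ 2 * (L * L) := by positivity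
  have b1 : |A1| * (2 * Fa a b c d) ≤ 4 * L ^ 3 := by
    have hFp : 0 < 2 * Fa a b c d := by linarith
    rw [← abs_of_pos hFp, ← abs_mul, id1]
    refine (abs_sub _ _).trans ?_
    rw [abs_mul, abs_mul]
    have w1 := mul_le_mul sG le1 (abs_nonneg _) LL
    have w2 := mul_le_mul sE le3 (abs_nonneg _) LL
    have w3 : 2 * (L * L) * L = 2 * L ^ 3 := by ring
    rw [w3] at w1 w2
    linarith
  have b2 : |A2| * (2 * Fa a b c d) ≤ 4 * L ^ 3 := by
    have hFp : 0 < 2 * Fa a b c d := by linarith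
    rw [← abs_of_pos hFp, ← abs_mul, id2]
    refine (abs_sub _ _).trans ?_
    rw [abs_mul, abs_mul]
    have w1 := mul_le_mul sG le2 (abs_nonneg _) LL
    have w2 := mul_le_mul sE le4 (abs_nonneg _) LL
    have w3 : 2 * (L * L) * L = 2 * L ^ 3 := by ring
    rw [w3] at w1 w2
    linarith
  have L3 : 0 ≤ L ^ 3 := by positivity
  constructor
  · rw [le_div_iff₀ hδ]
    have w1 : |A1| * (2 * δ) ≤ |A1| * (2 * Fa a b c d) :=
      mul_le_mul_of_nonneg_left (by linarith) (abs_nonneg _)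
    have w2 : |A1| * δ = (|A1| * (2 * δ)) / 2 := by ring
    rw [w2]; linarith
  · rw [le_div_iff₀ hδ]
    have w1 : |A2| * (2 * δ) ≤ |A2| * (2 * Fa a b c d) :=
      mul_le_mul_of_nonneg_left (by linarith) (abs_nonneg _)
    have w2 : |A2| * δ = (|A2| * (2 * δ)) / 2 := by ring
    rw [w2]; linarith

/-- existence of a minimal circumscribed quadruple. -/
theorem exists_mini {K : Set (ℝ × ℝ)} (hK : IsCompact K) {o : ℝ × ℝ} {r : ℝ}
    (hB : HasBall K o r) : ∃ a b c d, Mini K a b c d := by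
  have hr := hB.1
  set δ : ℝ := r ^ 2 / 4 with hδ
  have hδpos : 0 < δ := by positivity
  -- a big square
  obtain ⟨R, hR⟩ := hK.isBounded.exists_norm_le
  have hRo : ∀ x ∈ K, |x.1| ≤ R ∧ |x.2| ≤ R := by
    intro x hx
    have := hR x hx
    rw [Prod.norm_def] at this
    exact ⟨(le_max_left _ _).trans this, (le_max_right _ _).trans this⟩
  set S : ℝ := |R| + r with hS
  have hSpos : 0 < S := by positivity
  have hsq : Circ K (-S, -S) (S, -S) (S, S) (-S, S) := by
    intro x hx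
    obtain ⟨h1, h2⟩ := hRo x hx
    have h3 := abs_le.mp h1
    have h4 := abs_le.mp h2
    have h5 := le_abs_self R
    unfold br
    simp only
    refine ⟨?_, ?_, ?_, ?_⟩ <;> nlinarith
  have hsqF : Fa (-S, -S) (S, -S) (S, S) (-S, S) = 4 * S ^ 2 := by unfold Fa; ring
  let T : Set ((ℝ × ℝ) × (ℝ × ℝ) × (ℝ × ℝ) × (ℝ × ℝ)) :=
    {v | Circ K v.1 v.2.1 v.2.2.1 v.2.2.2 ∧ δ ≤ Fa v.1 v.2.1 v.2.2.1 v.2.2.2 ∧
      Fa v.1 v.2.1 v.2.2.1 v.2.2.2 ≤ 4 * S ^ 2}
  have hFc : Continuous (fun v : (ℝ × ℝ) × (ℝ × ℝ) × (ℝ × ℝ) × (ℝ × ℝ) =>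
      Fa v.1 v.2.1 v.2.2.1 v.2.2.2) := by unfold Fa; fun_prop
  have hTclosed : IsClosed T := by
    have c1 : IsClosed {v : (ℝ × ℝ) × (ℝ × ℝ) × (ℝ × ℝ) × (ℝ × ℝ) |
        Circ K v.1 v.2.1 v.2.2.1 v.2.2.2} := by
      have : {v : (ℝ × ℝ) × (ℝ × ℝ) × (ℝ × ℝ) × (ℝ × ℝ) | Circ K v.1 v.2.1 v.2.2.1 v.2.2.2}
          = ⋂ x ∈ K, {v | 0 ≤ br v.1 v.2.1 x ∧ 0 ≤ br v.2.1 v.2.2.1 x ∧
            0 ≤ br v.2.2.1 v.2.2.2 x ∧ 0 ≤ br v.2.2.2 v.1 x} := by
        ext v; simp [Circ]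
      rw [this]
      refine isClosed_biInter fun x _ => ?_
      have hcl : ∀ f : (ℝ × ℝ) × (ℝ × ℝ) × (ℝ × ℝ) × (ℝ × ℝ) → ℝ, Continuous f →
          IsClosed {v | 0 ≤ f v} := fun f hf => isClosed_le continuous_const hf
      exact (hcl (fun v => br v.1 v.2.1 x) (by unfold br; fun_prop)).inter
        ((hcl (fun v => br v.2.1 v.2.2.1 x) (by unfold br; fun_prop)).inter
        ((hcl (fun v => br v.2.2.1 v.2.2.2 x) (by unfold br; fun_prop)).inter
        (hcl (fun v => br v.2.2.2 v.1 x) (by unfold br; fun_prop))))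
    exact c1.inter ((isClosed_le continuous_const hFc).inter (isClosed_le hFc continuous_const))
  have hTbdd : Bornology.IsBounded T := by
    rw [isBounded_iff_forall_norm_le]
    set L : ℝ := 8 * S ^ 2 / r with hL
    have hL0 : 0 ≤ L := by positivity
    set W : ℝ := 6 * L ^ 3 / δ with hW
    refine ⟨max |o.1| |o.2| + W, ?_⟩
    rintro ⟨a, b, c, d⟩ ⟨h1, h2, h3⟩
    simp only at h1 h2 h3
    have hlen : ∀ {a b c d : ℝ × ℝ}, Circ K a b c d → Fa a b c d ≤ 4 * S ^ 2 →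
        len a b + len b c + len c d + len d a ≤ L := by
      intro a b c d h1 h3
      rw [hL, le_div_iff₀ hr]
      have := per_le hB h1
      linarith
    have hn : ∀ {a b c d : ℝ × ℝ}, Circ K a b c d → δ ≤ Fa a b c d → Fa a b c d ≤ 4 * S ^ 2 →
        ‖a‖ ≤ max |o.1| |o.2| + W := by
      intro a b c d h1 h2 h3
      obtain ⟨p1, p2⟩ := pos_bound hB h1 hδpos h2 (hlen h1 h3)
      rw [Prod.norm_def]
      apply max_le
      · have : |a.1| ≤ |o.1| + |a.1 - o.1| := by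
          have := abs_add_le o.1 (a.1 - o.1)
          rwa [show o.1 + (a.1 - o.1) = a.1 by ring] at this
        show |a.1| ≤ _
        linarith [le_max_left |o.1| |o.2|]
      · have : |a.2| ≤ |o.2| + |a.2 - o.2| := by
          have := abs_add_le o.2 (a.2 - o.2)
          rwa [show o.2 + (a.2 - o.2) = a.2 by ring] at this
        show |a.2| ≤ _
        linarith [le_max_right |o.1| |o.2|]
    have ha := hn h1 h2 h3
    have hb := hn (Circ_rot h1) (by rwa [Fa_rot]) (by rwa [Fa_rot])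
    have hc := hn (Circ_rot (Circ_rot h1)) (by rwa [Fa_rot, Fa_rot]) (by rwa [Fa_rot, Fa_rot])
    have hd := hn (Circ_rot (Circ_rot (Circ_rot h1))) (by rwa [Fa_rot, Fa_rot, Fa_rot])
      (by rwa [Fa_rot, Fa_rot, Fa_rot])
    rw [Prod.norm_def, Prod.norm_def, Prod.norm_def]
    exact max_le ha (max_le hb (max_le hc hd))
  have hTcomp : IsCompact T := Metric.isCompact_of_isClosed_isBounded hTclosed hTbdd
  have hTne : T.Nonempty := by
    refine ⟨((-S, -S), (S, -S), (S, S), (-S, S)), hsq, ?_, ?_⟩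
    · show δ ≤ Fa (-S, -S) (S, -S) (S, S) (-S, S)
      rw [hsqF, hδ]
      have : r ≤ S := by rw [hS]; linarith [abs_nonneg R]
      nlinarith
    · show Fa (-S, -S) (S, -S) (S, S) (-S, S) ≤ _
      rw [hsqF]
  obtain ⟨⟨a, b, c, d⟩, ⟨h1, h2, h3⟩, hmin⟩ := hTcomp.exists_isMinOn hTne hFc.continuousOn
  simp only at h1 h2 h3
  refine ⟨a, b, c, d, h1, by linarith, ?_⟩
  intro a' b' c' d' hC' hF'
  rcases le_total (Fa a' b' c' d') (4 * S ^ 2) with h | h
  · have hge := Fa_ge hB hC' hF'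
    have hmem : (a', b', c', d') ∈ T := by
      refine ⟨hC', ?_, h⟩
      show δ ≤ Fa a' b' c' d'
      rw [hδ]; nlinarith [sq_nonneg r]
    exact hmin hmem
  · exact h3.trans h

/-- existence of a minimal circumscribed quadruple whose side midpoints are in K. -/
theorem exists_mini_mid {K : Set (ℝ × ℝ)} (hK : IsCompact K) (hconv : Convex ℝ K)
    {o : ℝ × ℝ} {r : ℝ} (hB : HasBall K o r) : ∃ a b c d, Mini K a b c d ∧
      ((a.1 + b.1) / 2, (a.2 + b.2) / 2) ∈ K ∧ ((b.1 + c.1) / 2, (b.2 + c.2) / 2) ∈ K ∧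
      ((c.1 + d.1) / 2, (c.2 + d.2) / 2) ∈ K ∧ ((d.1 + a.1) / 2, (d.2 + a.2) / 2) ∈ K := by
  obtain ⟨a, b, c, d, hM⟩ := exists_mini hK hB
  -- the degenerate case, for any rotation
  have hdeg : ∀ {a b c d : ℝ × ℝ}, Mini K a b c d → br a b c = 0 → ∃ a b c d, Mini K a b c d ∧
      ((a.1 + b.1) / 2, (a.2 + b.2) / 2) ∈ K ∧ ((b.1 + c.1) / 2, (b.2 + c.2) / 2) ∈ K ∧
      ((c.1 + d.1) / 2, (c.2 + d.2) / 2) ∈ K ∧ ((d.1 + a.1) / 2, (d.2 + a.2) / 2) ∈ K := by
    intro a b c d hM h0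
    obtain ⟨hC, hF, hmin⟩ := hM
    have hF1 : Fa a a c d = Fa a b c d := by
      have : 2 * Fa a b c d - 2 * Fa a a c d = br a b c := by unfold Fa br; ring
      linarith
    have hC1 : ∀ x ∈ K, 0 ≤ br a c x ∧ 0 ≤ br c d x ∧ 0 ≤ br d a x := by
      intro x hx
      obtain ⟨q1, q2, q3, q4⟩ := hC x hx
      refine ⟨?_, q3, q4⟩
      have : br a c x = br a b x + br b c x - br a b c := by unfold br; ring
      rw [this, h0]; linarith
    have z : ∀ a x : ℝ × ℝ, br a a x = 0 := by intro a x; unfold br; ring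
    have m1 : Mini K a a c d := by
      refine ⟨fun x hx => ?_, by rw [hF1]; exact hF, by rw [hF1]; exact hmin⟩
      obtain ⟨q1, q2, q3⟩ := hC1 x hx
      exact ⟨(z a x).ge, q1, q2, q3⟩
    have hF2 : Fa c c d a = Fa a b c d := by
      rw [← hF1]; unfold Fa; ring
    have hF3 : Fa d d a c = Fa a b c d := by
      rw [← hF1]; unfold Fa; ring
    have m2 : Mini K c c d a := by
      refine ⟨fun x hx => ?_, by rw [hF2]; exact hF, by rw [hF2]; exact hmin⟩
      obtain ⟨q1, q2, q3⟩ := hC1 x hx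
      exact ⟨(z c x).ge, q2, q3, q1⟩
    have m3 : Mini K d d a c := by
      refine ⟨fun x hx => ?_, by rw [hF3]; exact hF, by rw [hF3]; exact hmin⟩
      obtain ⟨q1, q2, q3⟩ := hC1 x hx
      exact ⟨(z d x).ge, q3, q1, q2⟩
    have ka := tri_mem hK m1
    have kc := tri_mem hK m2
    have kd := tri_mem hK m3
    have mid : ∀ {x y : ℝ × ℝ}, x ∈ K → y ∈ K → ((x.1 + y.1) / 2, (x.2 + y.2) / 2) ∈ K := by
      intro x y hx hy
      have := hconv hx hy (a := 1/2) (b := 1/2) (by norm_num) (by norm_num) (by norm_num)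
      convert this using 1
      apply Prod.ext
      · simp only [Prod.fst_add, Prod.smul_fst, smul_eq_mul]; ring
      · simp only [Prod.snd_add, Prod.smul_snd, smul_eq_mul]; ring
    exact ⟨a, a, c, d, m1, mid ka ka, mid ka kc, mid kc kd, mid kd ka⟩
  by_cases e1 : br a b c = 0
  · exact hdeg hM e1
  by_cases e2 : br b c d = 0
  · exact hdeg (Mini_rot hM) e2
  by_cases e3 : br c d a = 0
  · exact hdeg (Mini_rot (Mini_rot hM)) e3
  by_cases e4 : br d a b = 0
  · exact hdeg (Mini_rot (Mini_rot (Mini_rot hM))) e4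
  exact ⟨a, b, c, d, hM, mid_mem hK hconv hM e4 e1, mid_mem hK hconv (Mini_rot hM) e1 e2,
    mid_mem hK hconv (Mini_rot (Mini_rot hM)) e2 e3,
    mid_mem hK hconv (Mini_rot (Mini_rot (Mini_rot hM))) e3 e4⟩

end Pool.Agent.D0H87.CQ
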