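import Mathlib

open Filter Topology Set MeasureTheory

namespace Pool.Agent.D0H87.CQ

/-- open standard triangle. -/
def Tri0 : Set (ℝ × ℝ) := {p | 0 < p.1 ∧ 0 < p.2 ∧ p.1 + p.2 < 1}

/-- closed standard triangle. -/
def Tri1 : Set (ℝ × ℝ) := {p | 0 ≤ p.1 ∧ 0 ≤ p.2 ∧ p.1 + p.2 ≤ 1}

theorem vol_Tri0 : volume Tri0 = ENNReal.ofReal (1 / 2) := by
  have h1 : Tri0 = regionBetween (fun _ => 0) (fun x => 1 - x) (Ioo 0 1) := by
    ext ⟨x, y⟩
    simp only [Tri0, regionBetween, mem_ofPred_eq, mem_Ioo]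
    constructor
    · rintro ⟨h1, h2, h3⟩
      exact ⟨⟨h1, by linarith⟩, h2, by linarith⟩
    · rintro ⟨⟨h1, h2⟩, h3, h4⟩
      exact ⟨h1, h3, by linarith⟩
  have hint : IntegrableOn (fun x : ℝ => 1 - x) (Ioo 0 1) volume :=
    ((continuous_const.sub continuous_id).integrableOn_Icc (a := 0) (b := 1)).mono_set
      Ioo_subset_Icc_self
  rw [h1]
  have := volume_regionBetween_eq_integral (μ := volume) (f := fun _ : ℝ => (0:ℝ))
    (g := fun x : ℝ => 1 - x) (s := Ioo (0:ℝ) 1) (by simp [IntegrableOn]) hint measurableSet_Ioo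
    (fun x hx => by simp at hx ⊢; linarith)
  rw [Measure.volume_eq_prod, this]
  congr 1
  have h3 : ∫ (y : ℝ) in Ioo 0 1, ((fun x : ℝ => 1 - x) - (fun _ : ℝ => (0:ℝ))) y
      = ∫ (y : ℝ) in (0:ℝ)..1, (1 - y) := by
    rw [intervalIntegral.integral_of_le zero_le_one, ← integral_Ioc_eq_integral_Ioo]
    simp
  rw [h3]
  rw [intervalIntegral.integral_sub (by simp) (by simp)]
  simp
  norm_num

theorem conv_Tri0 : Convex ℝ Tri0 := by
  intro x hx y hy a b ha hb hab
  obtain ⟨x1, x2, x3⟩ := hx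
  obtain ⟨y1, y2, y3⟩ := hy
  simp only [Tri0, mem_ofPred_eq, Prod.fst_add, Prod.smul_fst, smul_eq_mul, Prod.snd_add,
    Prod.smul_snd]
  rcases ha.eq_or_lt with h | h
  · have : b = 1 := by linarith
    subst this; rw [← h]; simp; exact ⟨y1, y2, y3⟩
  · refine ⟨?_, ?_, ?_⟩
    · nlinarith [mul_pos h x1, mul_nonneg hb y1.le]
    · nlinarith [mul_pos h x2, mul_nonneg hb y2.le]
    · have h1 : a * (x.1 + x.2) < a * 1 := mul_lt_mul_of_pos_left x3 h
      have h2 : b * (y.1 + y.2) ≤ b * 1 := mul_le_mul_of_nonneg_left y3.le hb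
      nlinarith

theorem Tri1_subset : Tri1 ⊆ closure Tri0 := by
  rintro ⟨x, y⟩ ⟨h1, h2, h3⟩
  simp only at h1 h2 h3
  have hc : Continuous (fun t : ℝ => ((1 - t) * x + t * (1/3), (1 - t) * y + t * (1/3))) := by
    fun_prop
  have hlim : Tendsto (fun t : ℝ => (((1 - t) * x + t * (1/3), (1 - t) * y + t * (1/3)) : ℝ × ℝ))
      (𝓝[>] 0) (𝓝 (x, y)) := by
    have := hc.tendsto 0
    simp only [sub_zero, one_mul, zero_mul, add_zero] at this
    exact this.mono_left nhdsWithin_le_nhds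
  refine mem_closure_of_tendsto hlim ?_
  have e1 : ∀ᶠ t : ℝ in 𝓝[>] 0, t < 1 := mem_nhdsWithin_of_mem_nhds (Iio_mem_nhds one_pos)
  filter_upwards [e1, self_mem_nhdsWithin] with t ht ht0
  have ht0 : 0 < t := ht0
  refine ⟨?_, ?_, ?_⟩
  · show 0 < (1 - t) * x + t * (1/3)
    nlinarith [mul_nonneg (sub_nonneg.mpr ht.le) h1]
  · show 0 < (1 - t) * y + t * (1/3)
    nlinarith [mul_nonneg (sub_nonneg.mpr ht.le) h2]
  · show (1 - t) * x + t * (1/3) + ((1 - t) * y + t * (1/3)) < 1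
    have := mul_le_mul_of_nonneg_left h3 (sub_nonneg.mpr ht.le)
    nlinarith

theorem vol_Tri1_le : volume Tri1 ≤ ENNReal.ofReal (1 / 2) := by
  calc volume Tri1 ≤ volume (closure Tri0) := measure_mono Tri1_subset
    _ ≤ volume (Tri0 ∪ frontier Tri0) := by
        apply measure_mono
        rw [← closure_eq_self_union_frontier]
    _ ≤ volume Tri0 + volume (frontier Tri0) := measure_union_le _ _
    _ = ENNReal.ofReal (1 / 2) := by
        rw [conv_Tri0.addHaar_frontier volume, vol_Tri0, add_zero]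

/-- affine map with origin a and linear part given by u, w. -/
def aff (a u w : ℝ × ℝ) (p : ℝ × ℝ) : ℝ × ℝ :=
  (a.1 + (u.1 * p.1 + w.1 * p.2), a.2 + (u.2 * p.1 + w.2 * p.2))

theorem vol_aff (a u w : ℝ × ℝ) (S : Set (ℝ × ℝ)) :
    volume (aff a u w '' S) = ENNReal.ofReal |u.1 * w.2 - u.2 * w.1| * volume S := by
  set Lm := Matrix.toLin (Module.Basis.finTwoProd ℝ) (Module.Basis.finTwoProd ℝ)
    !![u.1, w.1; u.2, w.2] with hLm
  have h1 : aff a u w '' S = (fun x => a + x) '' (Lm '' S) := by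
    rw [image_image]
    apply image_congr
    intro x _
    rw [hLm, Matrix.toLin_finTwoProd_apply]
    rfl
  rw [h1, image_add_left, measure_preimage_add, Measure.addHaar_image_linearMap, hLm,
    LinearMap.det_toLin, Matrix.det_fin_two_of]
  congr 3
  ring

theorem aff_convex (a u w : ℝ × ℝ) {S : Set (ℝ × ℝ)} (hS : Convex ℝ S) :
    Convex ℝ (aff a u w '' S) := by
  rintro _ ⟨x, hx, rfl⟩ _ ⟨y, hy, rfl⟩ s t hs ht hst
  refine ⟨s • x + t • y, hS hx hy hs ht hst, ?_⟩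
  have : t = 1 - s := by linarith
  subst this
  apply Prod.ext
  · simp only [aff, Prod.fst_add, Prod.smul_fst, smul_eq_mul, Prod.snd_add, Prod.smul_snd]; ring
  · simp only [aff, Prod.fst_add, Prod.smul_fst, smul_eq_mul, Prod.snd_add, Prod.smul_snd]; ring

theorem aff_cont (a u w : ℝ × ℝ) : Continuous (aff a u w) := by unfold aff; fun_prop

end Pool.Agent.D0H87.CQ
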