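import Pool.Agent.D0H87.CQ.A3

open Filter Topology Set MeasureTheory

namespace Pool.Agent.D0H87.CQ

theorem conv3 {K : Set (ℝ × ℝ)} (hK : Convex ℝ K) {a b c : ℝ × ℝ} (ha : a ∈ K) (hb : b ∈ K)
    (hc : c ∈ K) {p : ℝ × ℝ} (hp : p ∈ Tri1) :
    aff a (b.1 - a.1, b.2 - a.2) (c.1 - a.1, c.2 - a.2) p ∈ K := by
  obtain ⟨h1, h2, h3⟩ := hp
  rcases eq_or_lt_of_le (add_nonneg h1 h2) with h | h
  · have e1 : p.1 = 0 := by linarith
    have e2 : p.2 = 0 := by linarith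
    have : aff a (b.1 - a.1, b.2 - a.2) (c.1 - a.1, c.2 - a.2) p = a := by
      simp [aff, e1, e2]
    rw [this]; exact ha
  · have hq := hK hb hc (a := p.1 / (p.1 + p.2)) (b := p.2 / (p.1 + p.2)) (div_nonneg h1 h.le)
      (div_nonneg h2 h.le) (by rw [← add_div, div_self h.ne'])
    have := hK ha hq (a := 1 - (p.1 + p.2)) (b := p.1 + p.2) (by linarith) h.le (by ring)
    convert this using 1
    apply Prod.ext
    · simp only [aff, Prod.fst_add, Prod.smul_fst, smul_eq_mul]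
      field_simp; ring
    · simp only [aff, Prod.snd_add, Prod.smul_snd, smul_eq_mul]
      field_simp; ring

/-- open triangle. -/
def T (a b c : ℝ × ℝ) : Set (ℝ × ℝ) := aff a (b.1 - a.1, b.2 - a.2) (c.1 - a.1, c.2 - a.2) '' Tri0

/-- closed triangle. -/
def Tc (a b c : ℝ × ℝ) : Set (ℝ × ℝ) := aff a (b.1 - a.1, b.2 - a.2) (c.1 - a.1, c.2 - a.2) '' Tri1

theorem Tri0_sub : Tri0 ⊆ Tri1 := fun _ h => ⟨h.1.le, h.2.1.le, h.2.2.le⟩

theorem T_sub {K : Set (ℝ × ℝ)} (hK : Convex ℝ K) {a b c : ℝ × ℝ} (ha : a ∈ K) (hb : b ∈ K)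
    (hc : c ∈ K) : T a b c ⊆ K := by
  rintro _ ⟨p, hp, rfl⟩
  exact conv3 hK ha hb hc (Tri0_sub hp)

theorem Tc_sub {K : Set (ℝ × ℝ)} (hK : Convex ℝ K) {a b c : ℝ × ℝ} (ha : a ∈ K) (hb : b ∈ K)
    (hc : c ∈ K) : Tc a b c ⊆ K := by
  rintro _ ⟨p, hp, rfl⟩
  exact conv3 hK ha hb hc hp

theorem vol_T (a b c : ℝ × ℝ) : volume (T a b c) =
    ENNReal.ofReal (|(b.1 - a.1) * (c.2 - a.2) - (b.2 - a.2) * (c.1 - a.1)| / 2) := by
  unfold T
  rw [vol_aff, vol_Tri0, ← ENNReal.ofReal_mul (abs_nonneg _)]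
  congr 1
  ring

theorem vol_Tc (a b c : ℝ × ℝ) : volume (Tc a b c) ≤
    ENNReal.ofReal (|(b.1 - a.1) * (c.2 - a.2) - (b.2 - a.2) * (c.1 - a.1)| / 2) := by
  unfold Tc
  rw [vol_aff]
  refine (mul_le_mul_right vol_Tri1_le _).trans ?_
  rw [← ENNReal.ofReal_mul (abs_nonneg _)]
  apply le_of_eq
  congr 1
  ring

theorem T_null (a b c : ℝ × ℝ) : NullMeasurableSet (T a b c) volume :=
  (aff_convex _ _ _ conv_Tri0).nullMeasurableSet volume

/-- the open octagon pieces: unit square plus four triangles. -/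
def Oct (p1 yr p0 yl q1 xt q0 xb : ℝ) : Set (ℝ × ℝ) :=
  ((((Ioo 0 1 ×ˢ Ioo 0 1) ∪ T (1, 0) (1 + p1, yr) (1, 1)) ∪ T (0, 1) (-p0, yl) (0, 0)) ∪
    T (1, 1) (xt, 1 + q1) (0, 1)) ∪ T (0, 0) (xb, -q0) (1, 0)

theorem vol_Oct {p1 yr p0 yl q1 xt q0 xb : ℝ} (hp1 : 0 ≤ p1) (hp0 : 0 ≤ p0) (hq1 : 0 ≤ q1)
    (hq0 : 0 ≤ q0) (yr0 : 0 ≤ yr) (yr1 : yr ≤ 1) (yl0 : 0 ≤ yl) (yl1 : yl ≤ 1)
    (xt0 : 0 ≤ xt) (xt1 : xt ≤ 1) (xb0 : 0 ≤ xb) (xb1 : xb ≤ 1) :
    volume (Oct p1 yr p0 yl q1 xt q0 xb) =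
      ENNReal.ofReal (1 + (p1 + p0 + q1 + q0) / 2) := by
  have lSq : ∀ z ∈ (Ioo 0 1 ×ˢ Ioo 0 1 : Set (ℝ × ℝ)), 0 < z.1 ∧ z.1 < 1 ∧ 0 < z.2 ∧ z.2 < 1 := by
    rintro z ⟨⟨h1, h2⟩, h3, h4⟩
    exact ⟨h1, h2, h3, h4⟩
  have lR : ∀ z ∈ T (1, 0) (1 + p1, yr) (1, 1), 1 ≤ z.1 ∧ 0 < z.2 ∧ z.2 < 1 := by
    rintro _ ⟨p, ⟨h1, h2, h3⟩, rfl⟩
    simp only [aff]
    refine ⟨?_, ?_, ?_⟩
    · nlinarith
    · nlinarith [mul_nonneg yr0 h1.le]
    · nlinarith [mul_nonneg yr0 h1.le, mul_nonneg (sub_nonneg.mpr yr1) h1.le]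
  have lL : ∀ z ∈ T (0, 1) (-p0, yl) (0, 0), z.1 ≤ 0 ∧ 0 < z.2 ∧ z.2 < 1 := by
    rintro _ ⟨p, ⟨h1, h2, h3⟩, rfl⟩
    simp only [aff]
    refine ⟨?_, ?_, ?_⟩
    · nlinarith
    · nlinarith [mul_nonneg yl0 h1.le, mul_nonneg (sub_nonneg.mpr yl1) h1.le]
    · nlinarith [mul_nonneg yl0 h1.le, mul_nonneg (sub_nonneg.mpr yl1) h1.le]
  have lT : ∀ z ∈ T (1, 1) (xt, 1 + q1) (0, 1), 1 ≤ z.2 ∧ 0 < z.1 ∧ z.1 < 1 := by
    rintro _ ⟨p, ⟨h1, h2, h3⟩, rfl⟩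
    simp only [aff]
    refine ⟨?_, ?_, ?_⟩
    · nlinarith
    · nlinarith [mul_nonneg xt0 h1.le, mul_nonneg (sub_nonneg.mpr xt1) h1.le]
    · nlinarith [mul_nonneg xt0 h1.le, mul_nonneg (sub_nonneg.mpr xt1) h1.le]
  have lB : ∀ z ∈ T (0, 0) (xb, -q0) (1, 0), z.2 ≤ 0 ∧ 0 < z.1 ∧ z.1 < 1 := by
    rintro _ ⟨p, ⟨h1, h2, h3⟩, rfl⟩
    simp only [aff]
    refine ⟨?_, ?_, ?_⟩
    · nlinarith
    · nlinarith [mul_nonneg xb0 h1.le, mul_nonneg (sub_nonneg.mpr xb1) h1.le]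
    · nlinarith [mul_nonneg xb0 h1.le, mul_nonneg (sub_nonneg.mpr xb1) h1.le]
  have vSq : volume (Ioo 0 1 ×ˢ Ioo 0 1 : Set (ℝ × ℝ)) = ENNReal.ofReal 1 := by
    rw [Measure.volume_eq_prod, Measure.prod_prod]
    simp
  have vR : volume (T (1, 0) (1 + p1, yr) (1, 1)) = ENNReal.ofReal (p1 / 2) := by
    rw [vol_T]; congr 2; simp only; ring_nf; rw [abs_of_nonneg hp1]
  have vL : volume (T (0, 1) (-p0, yl) (0, 0)) = ENNReal.ofReal (p0 / 2) := by
    rw [vol_T]; congr 2; simp only; ring_nf; rw [abs_of_nonneg hp0]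
  have vT : volume (T (1, 1) (xt, 1 + q1) (0, 1)) = ENNReal.ofReal (q1 / 2) := by
    rw [vol_T]; congr 2; simp only; ring_nf; rw [abs_of_nonneg hq1]
  have vB : volume (T (0, 0) (xb, -q0) (1, 0)) = ENNReal.ofReal (q0 / 2) := by
    rw [vol_T]; congr 2; simp only; ring_nf; rw [abs_of_nonneg hq0]
  unfold Oct
  rw [measure_union₀ (T_null _ _ _), measure_union₀ (T_null _ _ _), measure_union₀ (T_null _ _ _),
    measure_union₀ (T_null _ _ _), vSq, vR, vL, vT, vB]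
  · rw [← ENNReal.ofReal_add (by positivity) (by positivity),
      ← ENNReal.ofReal_add (by positivity) (by positivity),
      ← ENNReal.ofReal_add (by positivity) (by positivity),
      ← ENNReal.ofReal_add (by positivity) (by positivity)]
    congr 1; ring
  · apply Disjoint.aedisjoint
    rw [Set.disjoint_left]
    intro z hz1 hz2
    have := lSq z hz1
    have := lR z hz2
    linarith
  · apply Disjoint.aedisjoint
    rw [Set.disjoint_left]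
    rintro z (hz1 | hz1) hz2
    · have := lSq z hz1
      have := lL z hz2
      linarith
    · have := lR z hz1
      have := lL z hz2
      linarith
  · apply Disjoint.aedisjoint
    rw [Set.disjoint_left]
    rintro z ((hz1 | hz1) | hz1) hz2
    · have := lSq z hz1
      have := lT z hz2
      linarith
    · have := lR z hz1
      have := lT z hz2
      linarith
    · have := lL z hz1
      have := lT z hz2
      linarith
  · apply Disjoint.aedisjoint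
    rw [Set.disjoint_left]
    rintro z (((hz1 | hz1) | hz1) | hz1) hz2
    · have := lSq z hz1
      have := lB z hz2
      linarith
    · have := lR z hz1
      have := lB z hz2
      linarith
    · have := lL z hz1
      have := lB z hz2
      linarith
    · have := lT z hz1
      have := lB z hz2
      linarith

/-- the open unit square lies in any convex set containing the four corners. -/
theorem sq_sub {K : Set (ℝ × ℝ)} (hK : Convex ℝ K) (h00 : ((0 : ℝ), (0 : ℝ)) ∈ K)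
    (h10 : ((1 : ℝ), (0 : ℝ)) ∈ K) (h01 : ((0 : ℝ), (1 : ℝ)) ∈ K) (h11 : ((1 : ℝ), (1 : ℝ)) ∈ K)
    {z : ℝ × ℝ} (h1 : 0 ≤ z.1) (h2 : z.1 ≤ 1) (h3 : 0 ≤ z.2) (h4 : z.2 ≤ 1) : z ∈ K := by
  have e0 : ((z.1, 0) : ℝ × ℝ) ∈ K := by
    have := hK h00 h10 (a := 1 - z.1) (b := z.1) (by linarith) h1 (by ring)
    convert this using 1
    apply Prod.ext <;> simp
  have e1 : ((z.1, 1) : ℝ × ℝ) ∈ K := by
    have := hK h01 h11 (a := 1 - z.1) (b := z.1) (by linarith) h1 (by ring)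
    convert this using 1
    apply Prod.ext <;> simp
  have := hK e0 e1 (a := 1 - z.2) (b := z.2) (by linarith) h3 (by ring)
  convert this using 1
  apply Prod.ext
  · simp; ring
  · simp

theorem Oct_sub {K : Set (ℝ × ℝ)} (hK : Convex ℝ K) {p1 yr p0 yl q1 xt q0 xb : ℝ}
    (h00 : ((0 : ℝ), (0 : ℝ)) ∈ K)
    (h10 : ((1 : ℝ), (0 : ℝ)) ∈ K) (h01 : ((0 : ℝ), (1 : ℝ)) ∈ K) (h11 : ((1 : ℝ), (1 : ℝ)) ∈ K)
    (hr : (1 + p1, yr) ∈ K) (hl : (-p0, yl) ∈ K) (ht : (xt, 1 + q1) ∈ K) (hb : (xb, -q0) ∈ K) :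
    Oct p1 yr p0 yl q1 xt q0 xb ⊆ K := by
  rintro z ((((hz | hz) | hz) | hz) | hz)
  · obtain ⟨⟨h1, h2⟩, h3, h4⟩ := hz
    exact sq_sub hK h00 h10 h01 h11 h1.le h2.le h3.le h4.le
  · exact T_sub hK h10 hr h11 hz
  · exact T_sub hK h01 hl h00 hz
  · exact T_sub hK h11 ht h01 hz
  · exact T_sub hK h00 hb h10 hz

/-- if a convex set with interior has a point outside a closed set containing E ⊆ K, its volume
is strictly larger than that of E. -/
theorem vol_strict {K E C : Set (ℝ × ℝ)} (hK : Convex ℝ K) (hint : (interior K).Nonempty)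
    (hEK : E ⊆ K) (hC : IsClosed C) (hEC : E ⊆ C) {z : ℝ × ℝ} (hz : z ∈ K) (hzC : z ∉ C)
    (hfin : volume E ≠ ⊤) : volume E < volume K := by
  set U : Set (ℝ × ℝ) := interior K \ C with hU
  have hUo : IsOpen U := isOpen_interior.sdiff hC
  have hUne : U.Nonempty := by
    have hcl : z ∈ closure (interior K) := by
      rw [hK.closure_interior_eq_closure_of_nonempty_interior hint]
      exact subset_closure hz
    rw [mem_closure_iff] at hcl
    obtain ⟨y, hy1, hy2⟩ := hcl Cᶜ hC.isOpen_compl hzC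
    exact ⟨y, hy2, hy1⟩
  have hUpos : 0 < volume U := hUo.measure_pos volume hUne
  have hdis : Disjoint E U := by
    rw [Set.disjoint_left]
    intro y hy hy2
    exact hy2.2 (hEC hy)
  calc volume E < volume E + volume U := ENNReal.lt_add_right hfin hUpos.ne'
    _ = volume (E ∪ U) := (measure_union hdis hUo.measurableSet).symm
    _ ≤ volume K := measure_mono (union_subset hEK (sdiff_subset.trans interior_subset))

end Pool.Agent.D0H87.CQ
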