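import Pool.Agent.D0H87.CQ.A2
import Pool.Agent.D0H87.CQ.A4

open Filter Topology Set MeasureTheory

namespace Pool.Agent.D0H87.CQ

/-- normalised convex bodies. -/
structure NormK (K : Set (ℝ × ℝ)) : Prop where
  comp : IsCompact K
  conv : Convex ℝ K
  h00 : ((0 : ℝ), (0 : ℝ)) ∈ K
  h10 : ((1 : ℝ), (0 : ℝ)) ∈ K
  h01 : ((0 : ℝ), (1 : ℝ)) ∈ K
  h11 : ((1 : ℝ), (1 : ℝ)) ∈ K
  cross : ∀ z ∈ K, (z.1 < 0 ∨ 1 < z.1) → 0 ≤ z.2 ∧ z.2 ≤ 1
  box : ∀ z ∈ K, -1 ≤ z.1 ∧ z.1 ≤ 2 ∧ -1 ≤ z.2 ∧ z.2 ≤ 2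
  min : ∀ a b c d, Circ K a b c d → 0 < Fa a b c d → 2 ≤ Fa a b c d

theorem half_convex (p q s : ℝ) : Convex ℝ {z : ℝ × ℝ | p * z.1 + q * z.2 ≤ s} := by
  intro x hx y hy a b ha hb hab
  simp only [mem_ofPred_eq, Prod.fst_add, Prod.smul_fst, smul_eq_mul, Prod.snd_add,
    Prod.smul_snd] at *
  have h1 : a * (p * x.1 + q * x.2) ≤ a * s := mul_le_mul_of_nonneg_left hx ha
  have h2 : b * (p * y.1 + q * y.2) ≤ b * s := mul_le_mul_of_nonneg_left hy hb
  have : a * s + b * s = s := by rw [← add_mul, hab, one_mul]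
  nlinarith

theorem half_closed (p q s : ℝ) : IsClosed {z : ℝ × ℝ | p * z.1 + q * z.2 ≤ s} :=
  isClosed_le (by fun_prop) continuous_const

theorem NormK.int_ne {K : Set (ℝ × ℝ)} (h : NormK K) : (interior K).Nonempty := by
  have hsub : (Ioo 0 1 ×ˢ Ioo 0 1 : Set (ℝ × ℝ)) ⊆ interior K := by
    apply interior_maximal
    · rintro z ⟨⟨h1, h2⟩, h3, h4⟩
      exact sq_sub h.conv h.h00 h.h10 h.h01 h.h11 h1.le h2.le h3.le h4.le
    · exact isOpen_Ioo.prod isOpen_Ioo
  exact ⟨(1/2, 1/2), hsub ⟨by norm_num, by norm_num⟩⟩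

theorem no_extremal {K : Set (ℝ × ℝ)} (h : NormK K)
    (hvol : volume K ≤ ENNReal.ofReal (Real.sqrt 2)) : False := by
  have hne : K.Nonempty := ⟨_, h.h00⟩
  set s2 : ℝ := Real.sqrt 2 with hs2
  have hs2pos : 0 < s2 := Real.sqrt_pos.mpr (by norm_num)
  have hs2sq : s2 * s2 = 2 := Real.mul_self_sqrt (by norm_num)
  have hs2lt : s2 < 3 / 2 := by nlinarith
  have hs2gt : 7 / 5 < s2 := by nlinarith
  -- extents
  obtain ⟨zr, hzr, hr⟩ := h.comp.exists_isMaxOn hne (f := fun z : ℝ × ℝ => z.1) continuous_fst.continuousOn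
  obtain ⟨zl, hzl, hl⟩ := h.comp.exists_isMinOn hne (f := fun z : ℝ × ℝ => z.1) continuous_fst.continuousOn
  obtain ⟨zt, hzt, ht⟩ := h.comp.exists_isMaxOn hne (f := fun z : ℝ × ℝ => z.2) continuous_snd.continuousOn
  obtain ⟨zb, hzb, hb⟩ := h.comp.exists_isMinOn hne (f := fun z : ℝ × ℝ => z.2) continuous_snd.continuousOn
  have hr' : ∀ z ∈ K, z.1 ≤ zr.1 := fun z hz => hr hz
  have hl' : ∀ z ∈ K, zl.1 ≤ z.1 := fun z hz => hl hz
  have ht' : ∀ z ∈ K, z.2 ≤ zt.2 := fun z hz => ht hz
  have hb' : ∀ z ∈ K, zb.2 ≤ z.2 := fun z hz => hb hz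
  obtain ⟨p1, hp1⟩ : ∃ p1, p1 = zr.1 - 1 := ⟨_, rfl⟩
  obtain ⟨p0, hp0⟩ : ∃ p0, p0 = -zl.1 := ⟨_, rfl⟩
  obtain ⟨q1, hq1⟩ : ∃ q1, q1 = zt.2 - 1 := ⟨_, rfl⟩
  obtain ⟨q0, hq0⟩ : ∃ q0, q0 = -zb.2 := ⟨_, rfl⟩
  have p1n : 0 ≤ p1 := by have := hr' _ h.h10; simp only at this; linarith
  have p0n : 0 ≤ p0 := by have := hl' _ h.h00; simp only at this; linarith
  have q1n : 0 ≤ q1 := by have := ht' _ h.h01; simp only at this; linarith
  have q0n : 0 ≤ q0 := by have := hb' _ h.h00; simp only at this; linarith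
  have hr'' : ∀ z ∈ K, z.1 ≤ 1 + p1 := fun z hz => by have := hr' z hz; linarith
  have hl'' : ∀ z ∈ K, -p0 ≤ z.1 := fun z hz => by have := hl' z hz; linarith
  have ht'' : ∀ z ∈ K, z.2 ≤ 1 + q1 := fun z hz => by have := ht' z hz; linarith
  have hb'' : ∀ z ∈ K, -q0 ≤ z.2 := fun z hz => by have := hb' z hz; linarith
  obtain ⟨yr, hyr, yr0, yr1⟩ : ∃ yr, ((1 + p1, yr) : ℝ × ℝ) ∈ K ∧ 0 ≤ yr ∧ yr ≤ 1 := by
    rcases p1n.eq_or_lt with e | e
    · exact ⟨0, by rw [← e, add_zero]; exact h.h10, le_rfl, zero_le_one⟩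
    · obtain ⟨k1, k2⟩ := h.cross zr hzr (Or.inr (by linarith))
      refine ⟨zr.2, ?_, k1, k2⟩
      convert hzr using 1
      exact Prod.ext (by simp only; linarith) rfl
  obtain ⟨yl, hyl, yl0, yl1⟩ : ∃ yl, ((-p0, yl) : ℝ × ℝ) ∈ K ∧ 0 ≤ yl ∧ yl ≤ 1 := by
    rcases p0n.eq_or_lt with e | e
    · exact ⟨0, by rw [← e, neg_zero]; exact h.h00, le_rfl, zero_le_one⟩
    · obtain ⟨k1, k2⟩ := h.cross zl hzl (Or.inl (by linarith))
      refine ⟨zl.2, ?_, k1, k2⟩
      convert hzl using 1
      exact Prod.ext (by simp only; linarith) rfl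
  obtain ⟨xt, hxt, xt0, xt1⟩ : ∃ xt, ((xt, 1 + q1) : ℝ × ℝ) ∈ K ∧ 0 ≤ xt ∧ xt ≤ 1 := by
    rcases q1n.eq_or_lt with e | e
    · exact ⟨0, by rw [← e, add_zero]; exact h.h01, le_rfl, zero_le_one⟩
    · refine ⟨zt.1, ?_, ?_, ?_⟩
      · convert hzt using 1
        exact Prod.ext rfl (by simp only; linarith)
      · by_contra hcon
        push Not at hcon
        have := h.cross zt hzt (Or.inl hcon)
        linarith
      · by_contra hcon
        push Not at hcon
        have := h.cross zt hzt (Or.inr hcon)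
        linarith
  obtain ⟨xb, hxb, xb0, xb1⟩ : ∃ xb, ((xb, -q0) : ℝ × ℝ) ∈ K ∧ 0 ≤ xb ∧ xb ≤ 1 := by
    rcases q0n.eq_or_lt with e | e
    · exact ⟨0, by rw [← e, neg_zero]; exact h.h00, le_rfl, zero_le_one⟩
    · refine ⟨zb.1, ?_, ?_, ?_⟩
      · convert hzb using 1
        exact Prod.ext rfl (by simp only; linarith)
      · by_contra hcon
        push Not at hcon
        have := h.cross zb hzb (Or.inl hcon)
        linarith
      · by_contra hcon
        push Not at hcon
        have := h.cross zb hzb (Or.inr hcon)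
        linarith
  -- lower bound for the area
  have hLB : 1 + (p1 + p0 + q1 + q0) / 2 ≤ s2 := by
    have h1 := measure_mono (μ := volume)
      (Oct_sub h.conv h.h00 h.h10 h.h01 h.h11 hyr hyl hxt hxb)
    rw [vol_Oct p1n p0n q1n q0n yr0 yr1 yl0 yl1 xt0 xt1 xb0 xb1] at h1
    exact (ENNReal.ofReal_le_ofReal_iff hs2pos.le).mp (h1.trans hvol)
  -- bounding rectangle
  have hRC : Circ K (-p0, -q0) (1 + p1, -q0) (1 + p1, 1 + q1) (-p0, 1 + q1) := by
    intro x hx
    have k1 := hr'' x hx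
    have k2 := hl'' x hx
    have k3 := ht'' x hx
    have k4 := hb'' x hx
    unfold br
    simp only
    refine ⟨?_, ?_, ?_, ?_⟩
    · have : (1 + p1 - -p0) * (x.2 - -q0) - (-q0 - -q0) * (x.1 - -p0)
        = (1 + p1 + p0) * (x.2 + q0) := by ring
      rw [this]; apply mul_nonneg <;> linarith
    · have : (1 + p1 - (1 + p1)) * (x.2 - -q0) - (1 + q1 - -q0) * (x.1 - (1 + p1))
        = (1 + q1 + q0) * (1 + p1 - x.1) := by ring
      rw [this]; apply mul_nonneg <;> linarith
    · have : (-p0 - (1 + p1)) * (x.2 - (1 + q1)) - (1 + q1 - (1 + q1)) * (x.1 - (1 + p1))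
        = (1 + p1 + p0) * (1 + q1 - x.2) := by ring
      rw [this]; apply mul_nonneg <;> linarith
    · have : (-p0 - -p0) * (x.2 - (1 + q1)) - (-q0 - (1 + q1)) * (x.1 - -p0)
        = (1 + q1 + q0) * (x.1 + p0) := by ring
      rw [this]; apply mul_nonneg <;> linarith
  have hRF : Fa (-p0, -q0) (1 + p1, -q0) (1 + p1, 1 + q1) (-p0, 1 + q1)
      = (1 + p1 + p0) * (1 + q1 + q0) := by unfold Fa; ring
  have hAB : 2 ≤ (1 + p1 + p0) * (1 + q1 + q0) := by
    rw [← hRF]
    apply h.min _ _ _ _ hRC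
    rw [hRF]; positivity
  -- equality case
  have hEq : p1 + p0 = q1 + q0 := by
    have w1 : (2 + (p1 + p0 + q1 + q0)) * (2 + (p1 + p0 + q1 + q0)) ≤ (2 * s2) * (2 * s2) :=
      mul_self_le_mul_self (by positivity) (by linarith)
    have w2 : (p1 + p0 - (q1 + q0)) ^ 2 = (2 + (p1 + p0 + q1 + q0)) * (2 + (p1 + p0 + q1 + q0))
      - 4 * ((1 + p1 + p0) * (1 + q1 + q0)) := by ring
    have : (p1 + p0 - (q1 + q0)) ^ 2 ≤ 0 := by
      rw [w2]
      have w3 : (2 * s2) * (2 * s2) = 8 := by linear_combination 4 * hs2sq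
      linarith
    have : p1 + p0 - (q1 + q0) = 0 := by
      have h0 := le_antisymm this (sq_nonneg _)
      exact pow_eq_zero_iff (two_ne_zero) |>.mp h0
    linarith
  have hA : 1 + p1 + p0 = s2 := by
    apply le_antisymm
    · linarith
    · have e : 1 + q1 + q0 = 1 + p1 + p0 := by linarith
      rw [e] at hAB
      by_contra hcon
      push Not at hcon
      have h0 : 0 ≤ 1 + p1 + p0 := by positivity
      have h1 : (1 + p1 + p0) * (1 + p1 + p0) < s2 * s2 := mul_self_lt_mul_self h0 hcon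
      linarith
  have hB : 1 + q1 + q0 = s2 := by linarith
  have hsum : 1 + (p1 + p0 + q1 + q0) / 2 = s2 := by linarith
  have hRF2 : Fa (-p0, -q0) (1 + p1, -q0) (1 + p1, 1 + q1) (-p0, 1 + q1) = 2 := by
    rw [hRF, hA, hB, hs2sq]
  have hRM : Mini K (-p0, -q0) (1 + p1, -q0) (1 + p1, 1 + q1) (-p0, 1 + q1) := by
    refine ⟨hRC, by rw [hRF2]; norm_num, fun a' b' c' d' h1 h2 => ?_⟩
    rw [hRF2]; exact h.min _ _ _ _ h1 h2
  set xc : ℝ := (1 + p1 - p0) / 2 with hxc
  set yc : ℝ := (1 + q1 - q0) / 2 with hyc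
  have n1 : br (-p0, 1 + q1) (-p0, -q0) (1 + p1, -q0) ≠ 0 := by
    have : br (-p0, 1 + q1) (-p0, -q0) (1 + p1, -q0) = (1 + p1 + p0) * (1 + q1 + q0) := by
      unfold br; ring
    rw [this]; positivity
  have n2 : br (-p0, -q0) (1 + p1, -q0) (1 + p1, 1 + q1) ≠ 0 := by
    have : br (-p0, -q0) (1 + p1, -q0) (1 + p1, 1 + q1) = (1 + p1 + p0) * (1 + q1 + q0) := by
      unfold br; ring
    rw [this]; positivity
  have n3 : br (1 + p1, -q0) (1 + p1, 1 + q1) (-p0, 1 + q1) ≠ 0 := by
    have : br (1 + p1, -q0) (1 + p1, 1 + q1) (-p0, 1 + q1) = (1 + p1 + p0) * (1 + q1 + q0) := by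
      unfold br; ring
    rw [this]; positivity
  have n4 : br (1 + p1, 1 + q1) (-p0, 1 + q1) (-p0, -q0) ≠ 0 := by
    have : br (1 + p1, 1 + q1) (-p0, 1 + q1) (-p0, -q0) = (1 + p1 + p0) * (1 + q1 + q0) := by
      unfold br; ring
    rw [this]; positivity
  have Nb : (xc, -q0) ∈ K := by
    have := mid_mem h.comp h.conv hRM n1 n2
    convert this using 1
    apply Prod.ext <;> simp only [hxc] <;> ring
  have Nr : (1 + p1, yc) ∈ K := by
    have := mid_mem h.comp h.conv (Mini_rot hRM) n2 n3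
    convert this using 1
    apply Prod.ext <;> simp only [hyc] <;> ring
  have Nt : (xc, 1 + q1) ∈ K := by
    have := mid_mem h.comp h.conv (Mini_rot (Mini_rot hRM)) n3 n4
    convert this using 1
    apply Prod.ext <;> simp only [hxc] <;> ring
  have Nl : (-p0, yc) ∈ K := by
    have := mid_mem h.comp h.conv (Mini_rot (Mini_rot (Mini_rot hRM))) n4 n1
    convert this using 1
    apply Prod.ext <;> simp only [hyc] <;> ring
  have xc0 : 0 ≤ xc := by rw [hxc]; linarith
  have xc1 : xc ≤ 1 := by rw [hxc]; linarith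
  have yc0 : 0 ≤ yc := by rw [hyc]; linarith
  have yc1 : yc ≤ 1 := by rw [hyc]; linarith
  have hE := vol_Oct p1n p0n q1n q0n yc0 yc1 yc0 yc1 xc0 xc1 xc0 xc1
  rw [hsum] at hE
  have hEK := Oct_sub h.conv h.h00 h.h10 h.h01 h.h11 Nr Nl Nt Nb
  -- K is inside every closed set containing the octagon pieces
  have hclosed : ∀ C : Set (ℝ × ℝ), IsClosed C → Oct p1 yc p0 yc q1 xc q0 xc ⊆ C → K ⊆ C := by
    intro C hC hEC z hz
    by_contra hzC
    have := vol_strict h.conv h.int_ne hEK hC hEC hz hzC (by rw [hE]; exact ENNReal.ofReal_ne_top)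
    rw [hE] at this
    exact absurd hvol (not_le.mpr this)
  have hhalf : ∀ p q s : ℝ, 0 ≤ s → p ≤ s → q ≤ s → p + q ≤ s →
      p * (1 + p1) + q * yc ≤ s → p * (-p0) + q * yc ≤ s → p * xc + q * (1 + q1) ≤ s →
      p * xc + q * (-q0) ≤ s → ∀ z ∈ K, p * z.1 + q * z.2 ≤ s := by
    intro p q s k0 k1 k2 k3 k4 k5 k6 k7 z hz
    have := hclosed {z : ℝ × ℝ | p * z.1 + q * z.2 ≤ s} (half_closed p q s)
      (Oct_sub (half_convex p q s) (by simpa using k0) (by simpa using k1) (by simpa using k2)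
        (by simpa using k3) (by simpa using k4) (by simpa using k5) (by simpa using k6)
        (by simpa using k7))
    exact this hz
  -- rotated competitors give further points of K
  have hmore : ∃ κ : ℝ, 0 < κ ∧ (xc + κ, 1 + q1) ∈ K ∧ (xc - κ, -q0) ∈ K := by
    have hp : 0 < p1 ∨ 0 < p0 := by
      by_contra hcon
      push Not at hcon
      linarith
    rcases hp with hp | hp
    · -- rotate the right side
      have hside : ∀ z ∈ K, z.1 ≤ 1 + p1 + p1 * (z.2 - yc) := by
        intro z hz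
        have a1 : 0 ≤ p1 * (1 - yc) := mul_nonneg hp.le (by linarith)
        have a2 : 0 ≤ p1 * yc := mul_nonneg hp.le yc0
        have a3 : 0 ≤ p1 * q1 := mul_nonneg hp.le q1n
        have a4 : 0 ≤ p1 * (1 - (yc + q0)) := by
          apply mul_nonneg hp.le
          have e1 : yc + q0 = s2 / 2 := by rw [hyc]; linarith
          linarith
        have := hhalf 1 (-p1) (1 + p1 - p1 * yc) (by linarith) (by linarith) (by linarith)
          (by linarith) (by linarith) (by linarith) (by linarith) (by linarith) z hz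
        linarith
      set κ : ℝ := p1 * s2 / 2 with hκ
      have hκpos : 0 < κ := by positivity
      have hκlt : κ < 1 := by
        have : p1 * s2 < 1 * 2 := mul_lt_mul'' (by linarith) (by linarith) hp.le hs2pos.le
        rw [hκ]; linarith
      have hC : Circ K (-p0, -q0) (1 + p1 - κ, -q0) (1 + p1 + κ, 1 + q1) (-p0, 1 + q1) := by
        intro x hx
        have k1 := hside x hx
        have k2 := hl'' x hx
        have k3 := ht'' x hx
        have k4 := hb'' x hx
        unfold br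
        simp only
        refine ⟨?_, ?_, ?_, ?_⟩
        · have : (1 + p1 - κ - -p0) * (x.2 - -q0) - (-q0 - -q0) * (x.1 - -p0)
            = (1 + p1 + p0 - κ) * (x.2 + q0) := by ring
          rw [this]; apply mul_nonneg <;> linarith
        · have : (1 + p1 + κ - (1 + p1 - κ)) * (x.2 - -q0) - (1 + q1 - -q0) * (x.1 - (1 + p1 - κ))
            = (1 + q1 + q0) * (1 + p1 + p1 * (x.2 - yc) - x.1)
              + (2 * κ - (1 + q1 + q0) * p1) * (x.2 + q0)
              + (1 + q1 + q0) * (p1 * (yc + q0) - κ) := by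
            ring
          rw [this, hB]
          have e1 : 2 * κ - s2 * p1 = 0 := by rw [hκ]; ring
          have e2 : p1 * (yc + q0) - κ = 0 := by
            rw [hκ]
            have : yc + q0 = s2 / 2 := by rw [hyc]; linarith
            rw [this]; ring
          rw [e1, e2]
          have := mul_nonneg hs2pos.le (sub_nonneg.mpr k1)
          linarith
        · have : (-p0 - (1 + p1 + κ)) * (x.2 - (1 + q1)) - (1 + q1 - (1 + q1)) * (x.1 - (1 + p1 + κ))
            = (1 + p1 + p0 + κ) * (1 + q1 - x.2) := by ring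
          rw [this]; apply mul_nonneg <;> linarith
        · have : (-p0 - -p0) * (x.2 - (1 + q1)) - (-q0 - (1 + q1)) * (x.1 - -p0)
            = (1 + q1 + q0) * (x.1 + p0) := by ring
          rw [this]; apply mul_nonneg <;> linarith
      have hF : Fa (-p0, -q0) (1 + p1 - κ, -q0) (1 + p1 + κ, 1 + q1) (-p0, 1 + q1) = 2 := by
        have : Fa (-p0, -q0) (1 + p1 - κ, -q0) (1 + p1 + κ, 1 + q1) (-p0, 1 + q1)
          = (1 + p1 + p0) * (1 + q1 + q0) := by unfold Fa; ring
        rw [this, hA, hB, hs2sq]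
      have hM : Mini K (-p0, -q0) (1 + p1 - κ, -q0) (1 + p1 + κ, 1 + q1) (-p0, 1 + q1) := by
        refine ⟨hC, by rw [hF]; norm_num, fun a' b' c' d' h1 h2 => ?_⟩
        rw [hF]; exact h.min _ _ _ _ h1 h2
      have m1 : br (-p0, 1 + q1) (-p0, -q0) (1 + p1 - κ, -q0) ≠ 0 := by
        have : br (-p0, 1 + q1) (-p0, -q0) (1 + p1 - κ, -q0)
          = (1 + p1 + p0 - κ) * (1 + q1 + q0) := by unfold br; ring
        rw [this]; apply mul_ne_zero <;> linarith
      have m2 : br (-p0, -q0) (1 + p1 - κ, -q0) (1 + p1 + κ, 1 + q1) ≠ 0 := by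
        have : br (-p0, -q0) (1 + p1 - κ, -q0) (1 + p1 + κ, 1 + q1)
          = (1 + p1 + p0 - κ) * (1 + q1 + q0) := by unfold br; ring
        rw [this]; apply mul_ne_zero <;> linarith
      have m3 : br (1 + p1 - κ, -q0) (1 + p1 + κ, 1 + q1) (-p0, 1 + q1) ≠ 0 := by
        have : br (1 + p1 - κ, -q0) (1 + p1 + κ, 1 + q1) (-p0, 1 + q1)
          = (1 + p1 + p0 + κ) * (1 + q1 + q0) := by unfold br; ring
        rw [this]; apply mul_ne_zero <;> linarith
      have m4 : br (1 + p1 + κ, 1 + q1) (-p0, 1 + q1) (-p0, -q0) ≠ 0 := by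
        have : br (1 + p1 + κ, 1 + q1) (-p0, 1 + q1) (-p0, -q0)
          = (1 + p1 + p0 + κ) * (1 + q1 + q0) := by unfold br; ring
        rw [this]; apply mul_ne_zero <;> linarith
      refine ⟨κ / 2, by positivity, ?_, ?_⟩
      · have := mid_mem h.comp h.conv (Mini_rot (Mini_rot hM)) m3 m4
        convert this using 1
        apply Prod.ext <;> simp only [hxc] <;> ring
      · have := mid_mem h.comp h.conv hM m1 m2
        convert this using 1
        apply Prod.ext <;> simp only [hxc] <;> ring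
    · -- rotate the left side
      have hside : ∀ z ∈ K, -p0 + p0 * (z.2 - yc) ≤ z.1 := by
        intro z hz
        have a1 : 0 ≤ p0 * (1 - yc) := mul_nonneg hp.le (by linarith)
        have a2 : 0 ≤ p0 * yc := mul_nonneg hp.le yc0
        have a3 : 0 ≤ p0 * q0 := mul_nonneg hp.le q0n
        have a4 : 0 ≤ p0 * (1 - (1 + q1 - yc)) := by
          apply mul_nonneg hp.le
          have e1 : 1 + q1 - yc = s2 / 2 := by rw [hyc]; linarith
          linarith
        have := hhalf (-1) p0 (p0 + p0 * yc) (by linarith) (by linarith) (by linarith)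
          (by linarith) (by linarith) (by linarith) (by linarith) (by linarith) z hz
        linarith
      set κ : ℝ := p0 * s2 / 2 with hκ
      have hκpos : 0 < κ := by positivity
      have hκlt : κ < 1 := by
        have : p0 * s2 < 1 * 2 := mul_lt_mul'' (by linarith) (by linarith) hp.le hs2pos.le
        rw [hκ]; linarith
      have hC : Circ K (-p0 - κ, -q0) (1 + p1, -q0) (1 + p1, 1 + q1) (-p0 + κ, 1 + q1) := by
        intro x hx
        have k1 := hside x hx
        have k2 := hr'' x hx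
        have k3 := ht'' x hx
        have k4 := hb'' x hx
        unfold br
        simp only
        refine ⟨?_, ?_, ?_, ?_⟩
        · have : (1 + p1 - (-p0 - κ)) * (x.2 - -q0) - (-q0 - -q0) * (x.1 - (-p0 - κ))
            = (1 + p1 + p0 + κ) * (x.2 + q0) := by ring
          rw [this]; apply mul_nonneg <;> linarith
        · have : (1 + p1 - (1 + p1)) * (x.2 - -q0) - (1 + q1 - -q0) * (x.1 - (1 + p1))
            = (1 + q1 + q0) * (1 + p1 - x.1) := by ring
          rw [this]; apply mul_nonneg <;> linarith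
        · have : (-p0 + κ - (1 + p1)) * (x.2 - (1 + q1)) - (1 + q1 - (1 + q1)) * (x.1 - (1 + p1))
            = (1 + p1 + p0 - κ) * (1 + q1 - x.2) := by ring
          rw [this]; apply mul_nonneg <;> linarith
        · have : (-p0 - κ - (-p0 + κ)) * (x.2 - (1 + q1)) - (-q0 - (1 + q1)) * (x.1 - (-p0 + κ))
            = (1 + q1 + q0) * (x.1 - (-p0 + p0 * (x.2 - yc)))
              + ((1 + q1 + q0) * p0 - 2 * κ) * (x.2 - (1 + q1))
              + (1 + q1 + q0) * (p0 * (1 + q1 - yc) - κ) := by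
            ring
          rw [this, hB]
          have e1 : s2 * p0 - 2 * κ = 0 := by rw [hκ]; ring
          have e2 : p0 * (1 + q1 - yc) - κ = 0 := by
            rw [hκ]
            have : 1 + q1 - yc = s2 / 2 := by rw [hyc]; linarith
            rw [this]; ring
          rw [e1, e2]
          have := mul_nonneg hs2pos.le (sub_nonneg.mpr k1)
          linarith
      have hF : Fa (-p0 - κ, -q0) (1 + p1, -q0) (1 + p1, 1 + q1) (-p0 + κ, 1 + q1) = 2 := by
        have : Fa (-p0 - κ, -q0) (1 + p1, -q0) (1 + p1, 1 + q1) (-p0 + κ, 1 + q1)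
          = (1 + p1 + p0) * (1 + q1 + q0) := by unfold Fa; ring
        rw [this, hA, hB, hs2sq]
      have hM : Mini K (-p0 - κ, -q0) (1 + p1, -q0) (1 + p1, 1 + q1) (-p0 + κ, 1 + q1) := by
        refine ⟨hC, by rw [hF]; norm_num, fun a' b' c' d' h1 h2 => ?_⟩
        rw [hF]; exact h.min _ _ _ _ h1 h2
      have m1 : br (-p0 + κ, 1 + q1) (-p0 - κ, -q0) (1 + p1, -q0) ≠ 0 := by
        have : br (-p0 + κ, 1 + q1) (-p0 - κ, -q0) (1 + p1, -q0)
          = (1 + p1 + p0 + κ) * (1 + q1 + q0) := by unfold br; ring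
        rw [this]; apply mul_ne_zero <;> linarith
      have m2 : br (-p0 - κ, -q0) (1 + p1, -q0) (1 + p1, 1 + q1) ≠ 0 := by
        have : br (-p0 - κ, -q0) (1 + p1, -q0) (1 + p1, 1 + q1)
          = (1 + p1 + p0 + κ) * (1 + q1 + q0) := by unfold br; ring
        rw [this]; apply mul_ne_zero <;> linarith
      have m3 : br (1 + p1, -q0) (1 + p1, 1 + q1) (-p0 + κ, 1 + q1) ≠ 0 := by
        have : br (1 + p1, -q0) (1 + p1, 1 + q1) (-p0 + κ, 1 + q1)
          = (1 + p1 + p0 - κ) * (1 + q1 + q0) := by unfold br; ring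
        rw [this]; apply mul_ne_zero <;> linarith
      have m4 : br (1 + p1, 1 + q1) (-p0 + κ, 1 + q1) (-p0 - κ, -q0) ≠ 0 := by
        have : br (1 + p1, 1 + q1) (-p0 + κ, 1 + q1) (-p0 - κ, -q0)
          = (1 + p1 + p0 - κ) * (1 + q1 + q0) := by unfold br; ring
        rw [this]; apply mul_ne_zero <;> linarith
      refine ⟨κ / 2, by positivity, ?_, ?_⟩
      · have := mid_mem h.comp h.conv (Mini_rot (Mini_rot hM)) m3 m4
        convert this using 1
        apply Prod.ext <;> simp only [hxc] <;> ring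
      · have := mid_mem h.comp h.conv hM m1 m2
        convert this using 1
        apply Prod.ext <;> simp only [hxc] <;> ring
  obtain ⟨κ, hκ, hKt, hKb⟩ := hmore
  have hq : 0 < q1 ∨ 0 < q0 := by
    by_contra hcon
    push Not at hcon
    linarith
  rcases hq with hq | hq
  · -- contradiction at the top
    have hsub := hclosed ({z : ℝ × ℝ | 0 * z.1 + 1 * z.2 ≤ 1} ∪
        {z : ℝ × ℝ | q1 * z.1 + (1 - xc) * z.2 ≤ q1 + (1 - xc)})
      ((half_closed _ _ _).union (half_closed _ _ _)) (by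
        rintro z ((((hz | hz) | hz) | hz) | hz)
        · left
          obtain ⟨⟨h1, h2⟩, h3, h4⟩ := hz
          show 0 * z.1 + 1 * z.2 ≤ 1
          linarith
        · left
          exact T_sub (half_convex 0 1 1) (by norm_num) (by simpa using yc1) (by norm_num) hz
        · left
          exact T_sub (half_convex 0 1 1) (by norm_num) (by simpa using yc1) (by norm_num) hz
        · right
          exact T_sub (half_convex q1 (1 - xc) (q1 + (1 - xc))) (by simp) (by
            simp only [mem_ofPred_eq]; linarith) (by simp only [mem_ofPred_eq]; linarith) hz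
        · left
          exact T_sub (half_convex 0 1 1) (by norm_num) (by
            simp only [mem_ofPred_eq]; linarith) (by norm_num) hz)
    rcases hsub hKt with hz | hz
    · simp only [mem_ofPred_eq] at hz; linarith
    · simp only [mem_ofPred_eq] at hz
      have := mul_pos hq hκ
      linarith
  · have hsub := hclosed ({z : ℝ × ℝ | 0 * z.1 + (-1) * z.2 ≤ 0} ∪
        {z : ℝ × ℝ | (-q0) * z.1 + (-xc) * z.2 ≤ 0})
      ((half_closed _ _ _).union (half_closed _ _ _)) (by
        rintro z ((((hz | hz) | hz) | hz) | hz)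
        · left
          obtain ⟨⟨h1, h2⟩, h3, h4⟩ := hz
          show 0 * z.1 + (-1) * z.2 ≤ 0
          linarith
        · left
          exact T_sub (half_convex 0 (-1) 0) (by norm_num) (by simpa using yc0) (by norm_num) hz
        · left
          exact T_sub (half_convex 0 (-1) 0) (by norm_num) (by simpa using yc0) (by norm_num) hz
        · left
          exact T_sub (half_convex 0 (-1) 0) (by norm_num) (by
            simp only [mem_ofPred_eq]; linarith) (by norm_num) hz
        · right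
          exact T_sub (half_convex (-q0) (-xc) 0) (by simp) (by
            simp only [mem_ofPred_eq]; linarith) (by simp only [mem_ofPred_eq]; linarith) hz)
    rcases hsub hKb with hz | hz
    · simp only [mem_ofPred_eq] at hz; linarith
    · simp only [mem_ofPred_eq] at hz
      have := mul_pos hq hκ
      linarith

end Pool.Agent.D0H87.CQ
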