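import Pool.Agent.D0H87.CQ.A5

open Filter Topology Set MeasureTheory

namespace Pool.Agent.D0H87.CQ

/-- dilation about the centre of the unit square. -/
noncomputable def dil (τ : ℝ) (z : ℝ × ℝ) : ℝ × ℝ :=
  (1 / 2 + (1 + τ) * (z.1 - 1 / 2), 1 / 2 + (1 + τ) * (z.2 - 1 / 2))

theorem vol_dil {τ : ℝ} (hτ : 0 < τ) (S : Set (ℝ × ℝ)) :
    volume (dil τ '' S) = ENNReal.ofReal ((1 + τ) ^ 2) * volume S := by
  have h : dil τ '' S = aff (1 / 2 - (1 + τ) / 2, 1 / 2 - (1 + τ) / 2) (1 + τ, 0) (0, 1 + τ) '' S := by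
    apply image_congr
    intro z _
    apply Prod.ext <;> simp only [dil, aff] <;> ring
  rw [h, vol_aff]
  congr 2
  have : (1 + τ) * (1 + τ) - 0 * 0 = (1 + τ) ^ 2 := by ring
  simp only
  rw [this, abs_of_nonneg (by positivity)]

theorem sub_dil {A B : Set (ℝ × ℝ)} {τ : ℝ} (hτ : 0 < τ) (hB : Convex ℝ B)
    (h00 : ((0 : ℝ), (0 : ℝ)) ∈ B) (h10 : ((1 : ℝ), (0 : ℝ)) ∈ B) (h01 : ((0 : ℝ), (1 : ℝ)) ∈ B)
    (h11 : ((1 : ℝ), (1 : ℝ)) ∈ B) (h : ∀ y ∈ A, ∃ x ∈ B, dist y x < τ / 2) :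
    A ⊆ dil τ '' B := by
  intro y hy
  obtain ⟨x, hx, hd⟩ := h y hy
  rw [Prod.dist_eq, max_lt_iff, Real.dist_eq, Real.dist_eq, abs_lt, abs_lt] at hd
  obtain ⟨⟨d1, d2⟩, d3, d4⟩ := hd
  have hτ1 : 0 < 1 + τ := by linarith
  have hw : ((1 / 2 + (y.1 - x.1) / τ, 1 / 2 + (y.2 - x.2) / τ) : ℝ × ℝ) ∈ B := by
    have e1 : -(1/2) < (y.1 - x.1) / τ := by rw [lt_div_iff₀ hτ]; linarith
    have e2 : (y.1 - x.1) / τ < 1/2 := by rw [div_lt_iff₀ hτ]; linarith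
    have e3 : -(1/2) < (y.2 - x.2) / τ := by rw [lt_div_iff₀ hτ]; linarith
    have e4 : (y.2 - x.2) / τ < 1/2 := by rw [div_lt_iff₀ hτ]; linarith
    apply sq_sub hB h00 h10 h01 h11 <;> simp only <;> linarith
  have hz := hB hx hw (a := 1 / (1 + τ)) (b := τ / (1 + τ)) (by positivity) (by positivity)
    (by field_simp)
  refine ⟨_, hz, ?_⟩
  apply Prod.ext
  · simp only [dil, Prod.fst_add, Prod.smul_fst, smul_eq_mul]
    field_simp; ring
  · simp only [dil, Prod.snd_add, Prod.smul_snd, smul_eq_mul]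
    field_simp; ring

theorem Circ_dil {K A : Set (ℝ × ℝ)} {τ : ℝ} (hτ : 0 < τ) (hA : A ⊆ dil τ '' K)
    {a b c d : ℝ × ℝ} (h : Circ K a b c d) :
    Circ A (dil τ a) (dil τ b) (dil τ c) (dil τ d) := by
  have hbr : ∀ u v w : ℝ × ℝ, br (dil τ u) (dil τ v) (dil τ w) = (1 + τ) ^ 2 * br u v w := by
    intro u v w; unfold br dil; ring
  intro x hx
  obtain ⟨z, hz, rfl⟩ := hA hx
  obtain ⟨h1, h2, h3, h4⟩ := h z hz
  rw [hbr, hbr, hbr, hbr]
  refine ⟨?_, ?_, ?_, ?_⟩ <;> positivity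

/-- ultralimit of a sequence of sets. -/
def ulim (U : Ultrafilter ℕ) (K : ℕ → Set (ℝ × ℝ)) : Set (ℝ × ℝ) :=
  {x | ∀ ε > 0, ∀ᶠ n in (U : Filter ℕ), ∃ y ∈ K n, dist x y < ε}

theorem ulim_sub_closed {U : Ultrafilter ℕ} {K : ℕ → Set (ℝ × ℝ)} {C : Set (ℝ × ℝ)}
    (hC : IsClosed C) (h : ∀ n, K n ⊆ C) : ulim U K ⊆ C := by
  intro x hx
  rw [← hC.closure_eq, Metric.mem_closure_iff]
  intro ε hε
  obtain ⟨n, y, hy, hd⟩ := (hx ε hε).exists
  exact ⟨y, h n hy, hd⟩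

theorem ulim_closed (U : Ultrafilter ℕ) (K : ℕ → Set (ℝ × ℝ)) : IsClosed (ulim U K) := by
  rw [← isSeqClosed_iff_isClosed]
  intro s x hs hlim ε hε
  rw [Metric.tendsto_atTop] at hlim
  obtain ⟨N, hN⟩ := hlim (ε / 2) (by positivity)
  have h1 := hN N le_rfl
  filter_upwards [hs N (ε / 2) (by positivity)] with n hn
  obtain ⟨y, hy, hd⟩ := hn
  refine ⟨y, hy, ?_⟩
  have := dist_triangle x (s N) y
  rw [dist_comm] at h1
  linarith

theorem ulim_mem {U : Ultrafilter ℕ} {K : ℕ → Set (ℝ × ℝ)} {x : ℝ × ℝ} (h : ∀ n, x ∈ K n) :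
    x ∈ ulim U K := by
  intro ε hε
  exact Eventually.of_forall fun n => ⟨x, h n, by simpa using hε⟩

theorem ulim_convex {U : Ultrafilter ℕ} {K : ℕ → Set (ℝ × ℝ)} (h : ∀ n, Convex ℝ (K n)) :
    Convex ℝ (ulim U K) := by
  intro x hx y hy a b ha hb hab ε hε
  filter_upwards [hx ε hε, hy ε hε] with n h1 h2
  obtain ⟨x', hx', d1⟩ := h1
  obtain ⟨y', hy', d2⟩ := h2
  refine ⟨a • x' + b • y', h n hx' hy' ha hb hab, ?_⟩
  rw [dist_eq_norm] at *
  have : a • x + b • y - (a • x' + b • y') = a • (x - x') + b • (y - y') := by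
    simp only [smul_sub]; abel
  rw [this]
  refine (norm_add_le _ _).trans_lt ?_
  rw [norm_smul, norm_smul, Real.norm_of_nonneg ha, Real.norm_of_nonneg hb]
  rcases ha.eq_or_lt with h0 | h0
  · have : b = 1 := by linarith
    rw [← h0, this]; simpa using d2
  · have h3 : a * ‖x - x'‖ < a * ε := mul_lt_mul_of_pos_left d1 h0
    have h4 : b * ‖y - y'‖ ≤ b * ε := mul_le_mul_of_nonneg_left d2.le hb
    have : a * ε + b * ε = ε := by rw [← add_mul, hab, one_mul]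
    linarith

/-- limits of points along the ultrafilter. -/
theorem exists_ulim {U : Ultrafilter ℕ} {B : Set (ℝ × ℝ)} (hB : IsCompact B) (y : ℕ → ℝ × ℝ)
    (hy : ∀ n, y n ∈ B) : ∃ x ∈ B, Tendsto y U (𝓝 x) := by
  have h1 : ((U.map y : Ultrafilter (ℝ × ℝ)) : Filter (ℝ × ℝ)) ≤ 𝓟 B := by
    rw [le_principal_iff]
    show y ⁻¹' B ∈ (U : Filter ℕ)
    have : y ⁻¹' B = univ := by ext n; simp [hy n]
    rw [this]; exact univ_mem
  obtain ⟨x, hx, hle⟩ := hB.ultrafilter_le_nhds (U.map y) h1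
  exact ⟨x, hx, hle⟩

theorem ulim_outer {U : Ultrafilter ℕ} {K : ℕ → Set (ℝ × ℝ)} {B : Set (ℝ × ℝ)}
    (hB : IsCompact B) (hKB : ∀ n, K n ⊆ B) (hne : ∀ n, (K n).Nonempty) {ε : ℝ} (hε : 0 < ε) :
    ∀ᶠ n in (U : Filter ℕ), ∀ y ∈ K n, ∃ x ∈ ulim U K, dist y x < ε := by
  by_contra hcon
  rw [← Ultrafilter.eventually_not] at hcon
  push Not at hcon
  have : ∀ n, ∃ y ∈ K n, (∃ y ∈ K n, ∀ x ∈ ulim U K, ε ≤ dist y x) →
      ∀ x ∈ ulim U K, ε ≤ dist y x := by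
    intro n
    by_cases h : ∃ y ∈ K n, ∀ x ∈ ulim U K, ε ≤ dist y x
    · obtain ⟨y, hy, h2⟩ := h
      exact ⟨y, hy, fun _ => h2⟩
    · obtain ⟨y, hy⟩ := hne n
      exact ⟨y, hy, fun h' => absurd h' h⟩
  choose y hy hy2 using this
  obtain ⟨x, hx, hlim⟩ := exists_ulim (U := U) hB y (fun n => hKB n (hy n))
  have hxu : x ∈ ulim U K := by
    intro δ hδ
    have := hlim (Metric.ball_mem_nhds x hδ)
    filter_upwards [this] with n hn
    refine ⟨y n, hy n, ?_⟩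
    rw [dist_comm]; exact hn
  have h2 := hlim (Metric.ball_mem_nhds x hε)
  have h3 : ∀ᶠ n in (U : Filter ℕ), y n ∈ Metric.ball x ε := h2
  obtain ⟨n, hn1, hn2⟩ := (hcon.and h3).exists
  have := hy2 n hn1 x hxu
  rw [Metric.mem_ball] at hn2
  linarith

theorem ulim_inner {U : Ultrafilter ℕ} {K : ℕ → Set (ℝ × ℝ)} {B : Set (ℝ × ℝ)}
    (hB : IsCompact B) (hKB : ∀ n, K n ⊆ B) (hne : (ulim U K).Nonempty)
    (hBc : IsClosed B) {ε : ℝ} (hε : 0 < ε) :
    ∀ᶠ n in (U : Filter ℕ), ∀ x ∈ ulim U K, ∃ y ∈ K n, dist x y < ε := by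
  by_contra hcon
  rw [← Ultrafilter.eventually_not] at hcon
  push Not at hcon
  have : ∀ n, ∃ x ∈ ulim U K, (∃ x ∈ ulim U K, ∀ y ∈ K n, ε ≤ dist x y) →
      ∀ y ∈ K n, ε ≤ dist x y := by
    intro n
    by_cases h : ∃ x ∈ ulim U K, ∀ y ∈ K n, ε ≤ dist x y
    · obtain ⟨x, hx, h2⟩ := h
      exact ⟨x, hx, fun _ => h2⟩
    · obtain ⟨x, hx⟩ := hne
      exact ⟨x, hx, fun h' => absurd h' h⟩
  choose x hx hx2 using this
  have hcomp : IsCompact (ulim U K) :=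
    hB.of_isClosed_subset (ulim_closed U K) (ulim_sub_closed hBc hKB)
  obtain ⟨z, hz, hlim⟩ := exists_ulim (U := U) hcomp x hx
  have h2 := hlim (Metric.ball_mem_nhds z (half_pos hε))
  have h3 : ∀ᶠ n in (U : Filter ℕ), x n ∈ Metric.ball z (ε / 2) := h2
  obtain ⟨n, ⟨hn1, hn2⟩, hn3⟩ := ((hcon.and h3).and (hz (ε / 2) (half_pos hε))).exists
  obtain ⟨y, hy, hd⟩ := hn3
  have := hx2 n hn1 y hy
  rw [Metric.mem_ball] at hn2
  have := dist_triangle (x n) z y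
  linarith

theorem gap : ∃ η : ℝ, 0 < η ∧ ∀ K : Set (ℝ × ℝ), NormK K →
    ENNReal.ofReal (Real.sqrt 2 + η) ≤ volume K := by
  by_contra hcon
  push Not at hcon
  have hex : ∀ n : ℕ, ∃ K : Set (ℝ × ℝ), NormK K ∧
      volume K < ENNReal.ofReal (Real.sqrt 2 + 1 / ((n : ℝ) + 1)) := by
    intro n
    exact hcon (1 / ((n : ℝ) + 1)) (by positivity)
  choose K hN hV using hex
  set U : Ultrafilter ℕ := hyperfilter ℕ with hU
  set L := ulim U K with hL
  set B : Set (ℝ × ℝ) := Icc (-1) 2 ×ˢ Icc (-1) 2 with hB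
  have hBcomp : IsCompact B := isCompact_Icc.prod isCompact_Icc
  have hBcl : IsClosed B := hBcomp.isClosed
  have hKB : ∀ n, K n ⊆ B := by
    intro n z hz
    obtain ⟨h1, h2, h3, h4⟩ := (hN n).box z hz
    exact ⟨⟨h1, h2⟩, h3, h4⟩
  have hLB : L ⊆ B := ulim_sub_closed hBcl hKB
  have hLc : IsCompact L := hBcomp.of_isClosed_subset (ulim_closed U K) hLB
  have hLne : L.Nonempty := ⟨_, ulim_mem (fun n => (hN n).h00)⟩
  have hLconv : Convex ℝ L := ulim_convex (fun n => (hN n).conv)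
  have l00 : ((0 : ℝ), (0 : ℝ)) ∈ L := ulim_mem (fun n => (hN n).h00)
  have l10 : ((1 : ℝ), (0 : ℝ)) ∈ L := ulim_mem (fun n => (hN n).h10)
  have l01 : ((0 : ℝ), (1 : ℝ)) ∈ L := ulim_mem (fun n => (hN n).h01)
  have l11 : ((1 : ℝ), (1 : ℝ)) ∈ L := ulim_mem (fun n => (hN n).h11)
  have hNL : NormK L := by
    refine ⟨hLc, hLconv, l00, l10, l01, l11, ?_, ?_, ?_⟩
    · have hC : IsClosed ((Icc 0 1 ×ˢ univ) ∪ (univ ×ˢ Icc 0 1) : Set (ℝ × ℝ)) :=
        (isClosed_Icc.prod isClosed_univ).union (isClosed_univ.prod isClosed_Icc)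
      have hsub : L ⊆ ((Icc 0 1 ×ˢ univ) ∪ (univ ×ˢ Icc 0 1) : Set (ℝ × ℝ)) := by
        apply ulim_sub_closed hC
        intro n z hz
        by_cases h : z.1 < 0 ∨ 1 < z.1
        · right
          exact ⟨mem_univ _, (hN n).cross z hz h⟩
        · left
          push Not at h
          exact ⟨h, mem_univ _⟩
      intro z hz h
      rcases hsub hz with h1 | h1
      · obtain ⟨⟨h2, h3⟩, -⟩ := h1
        exfalso
        rcases h with h | h <;> linarith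
      · exact h1.2
    · intro z hz
      obtain ⟨⟨h1, h2⟩, h3, h4⟩ := hLB hz
      exact ⟨h1, h2, h3, h4⟩
    · intro a b c d hC hF
      by_contra hlt
      push Not at hlt
      -- choose τ with (1+τ)^2 F < 2
      have hc : Tendsto (fun τ : ℝ => (1 + τ) ^ 2 * Fa a b c d) (𝓝[>] 0)
          (𝓝 (Fa a b c d)) := by
        have : Continuous (fun τ : ℝ => (1 + τ) ^ 2 * Fa a b c d) := by fun_prop
        have := this.tendsto 0
        simp only [add_zero, one_pow, one_mul] at this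
        exact this.mono_left nhdsWithin_le_nhds
      obtain ⟨τ, h1, h2⟩ := ((hc.eventually (gt_mem_nhds hlt)).and self_mem_nhdsWithin).exists
      have hτ : 0 < τ := h2
      obtain ⟨n, hn⟩ := (ulim_outer (U := U) hBcomp hKB (fun n => ⟨_, (hN n).h00⟩)
        (half_pos hτ)).exists
      have hsub : K n ⊆ dil τ '' L := sub_dil hτ hLconv l00 l10 l01 l11 hn
      have hCn := Circ_dil hτ hsub hC
      have hFn : Fa (dil τ a) (dil τ b) (dil τ c) (dil τ d) = (1 + τ) ^ 2 * Fa a b c d := by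
        unfold Fa dil; ring
      have := (hN n).min _ _ _ _ hCn (by rw [hFn]; positivity)
      rw [hFn] at this
      linarith
  apply no_extremal hNL
  -- volume bound
  have hs2 : 0 ≤ Real.sqrt 2 := Real.sqrt_nonneg 2
  have hbound : ∀ τ : ℝ, 0 < τ →
      volume L ≤ ENNReal.ofReal ((1 + τ) ^ 2 * (Real.sqrt 2 + τ)) := by
    intro τ hτ
    have h1 := ulim_inner (U := U) hBcomp hKB hLne hBcl (half_pos hτ)
    have h2 : ∀ᶠ n : ℕ in (U : Filter ℕ), 1 / ((n : ℝ) + 1) < τ := by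
      have : ∀ᶠ n : ℕ in atTop, 1 / ((n : ℝ) + 1) < τ :=
        (tendsto_one_div_add_atTop_nhds_zero_nat (𝕜 := ℝ)).eventually (gt_mem_nhds hτ)
      exact (Nat.hyperfilter_le_atTop) this
    obtain ⟨n, hn1, hn2⟩ := (h1.and h2).exists
    have hsub : L ⊆ dil τ '' K n := sub_dil hτ (hN n).conv (hN n).h00 (hN n).h10 (hN n).h01
      (hN n).h11 hn1
    calc volume L ≤ volume (dil τ '' K n) := measure_mono hsub
      _ = ENNReal.ofReal ((1 + τ) ^ 2) * volume (K n) := vol_dil hτ _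
      _ ≤ ENNReal.ofReal ((1 + τ) ^ 2) * ENNReal.ofReal (Real.sqrt 2 + τ) := by
          apply mul_le_mul_right
          exact (hV n).le.trans (ENNReal.ofReal_le_ofReal (by linarith))
      _ = ENNReal.ofReal ((1 + τ) ^ 2 * (Real.sqrt 2 + τ)) := by
          rw [← ENNReal.ofReal_mul (by positivity)]
  have hlim : Tendsto (fun τ : ℝ => ENNReal.ofReal ((1 + τ) ^ 2 * (Real.sqrt 2 + τ))) (𝓝[>] 0)
      (𝓝 (ENNReal.ofReal (Real.sqrt 2))) := by
    apply ENNReal.tendsto_ofReal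
    have : Continuous (fun τ : ℝ => (1 + τ) ^ 2 * (Real.sqrt 2 + τ)) := by fun_prop
    have := this.tendsto 0
    simp only [add_zero, one_pow, one_mul] at this
    exact this.mono_left nhdsWithin_le_nhds
  refine ge_of_tendsto hlim ?_
  filter_upwards [self_mem_nhdsWithin] with τ hτ
  exact hbound τ hτ

end Pool.Agent.D0H87.CQ
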