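import Pool.Agent.D0H87.CQ.A6

open Filter Topology Set MeasureTheory

namespace Pool.Agent.D0H87.CQ

/-- the region cut out by the four edge lines is covered by two closed triangles. -/
theorem region_cover {a b c d x : ℝ × ℝ} (hF : 0 < Fa a b c d)
    (h1 : 0 ≤ br a b x) (h2 : 0 ≤ br b c x) (h3 : 0 ≤ br c d x) (h4 : 0 ≤ br d a x) :
    x ∈ Tc a b c ∨ x ∈ Tc a c d := by
  have id1 : br a c x + br c d x + br d a x = br a c d := by unfold br; ring
  have id2 : br a b x + br b c x - br a c x = br a b c := by unfold br; ring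
  have id3 : br a b c + br a c d = 2 * Fa a b c d := by unfold br Fa; ring
  have case2 : 0 ≤ br a c x → 0 < br a c d → x ∈ Tc a c d := by
    intro h5 h6
    refine ⟨(br d a x / br a c d, br a c x / br a c d), ⟨div_nonneg h4 h6.le, div_nonneg h5 h6.le,
      ?_⟩, ?_⟩
    · show br d a x / br a c d + br a c x / br a c d ≤ 1
      rw [← add_div, div_le_one h6]; linarith
    · have e1 : (c.1 - a.1) * br d a x + (d.1 - a.1) * br a c x = (x.1 - a.1) * br a c d := by
        unfold br; ring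
      have e2 : (c.2 - a.2) * br d a x + (d.2 - a.2) * br a c x = (x.2 - a.2) * br a c d := by
        unfold br; ring
      apply Prod.ext
      · simp only [aff]
        rw [mul_div_assoc', mul_div_assoc', ← add_div, e1, mul_div_assoc, div_self h6.ne']; ring
      · simp only [aff]
        rw [mul_div_assoc', mul_div_assoc', ← add_div, e2, mul_div_assoc, div_self h6.ne']; ring
  have case1 : br a c x ≤ 0 → 0 < br a b c → x ∈ Tc a b c := by
    intro h5 h6
    refine ⟨(-br a c x / br a b c, br a b x / br a b c), ⟨div_nonneg (by linarith) h6.le,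
      div_nonneg h1 h6.le, ?_⟩, ?_⟩
    · show -br a c x / br a b c + br a b x / br a b c ≤ 1
      rw [← add_div, div_le_one h6]; linarith
    · have e1 : (b.1 - a.1) * (-br a c x) + (c.1 - a.1) * br a b x = (x.1 - a.1) * br a b c := by
        unfold br; ring
      have e2 : (b.2 - a.2) * (-br a c x) + (c.2 - a.2) * br a b x = (x.2 - a.2) * br a b c := by
        unfold br; ring
      apply Prod.ext
      · simp only [aff]
        rw [mul_div_assoc', mul_div_assoc', ← add_div, e1, mul_div_assoc, div_self h6.ne']; ring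
      · simp only [aff]
        rw [mul_div_assoc', mul_div_assoc', ← add_div, e2, mul_div_assoc, div_self h6.ne']; ring
  rcases lt_trichotomy (br a c x) 0 with h | h | h
  · exact Or.inl (case1 h.le (by linarith))
  · rcases lt_or_ge 0 (br a c d) with h5 | h5
    · exact Or.inr (case2 h.ge h5)
    · exact Or.inl (case1 h.le (by linarith))
  · exact Or.inr (case2 h.le (by linarith))

theorem region_hull {a b c d x : ℝ × ℝ} (hF : 0 < Fa a b c d)
    (h1 : 0 ≤ br a b x) (h2 : 0 ≤ br b c x) (h3 : 0 ≤ br c d x) (h4 : 0 ≤ br d a x) :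
    x ∈ convexHull ℝ ({a, b, c, d} : Set (ℝ × ℝ)) := by
  have ha : a ∈ convexHull ℝ ({a, b, c, d} : Set (ℝ × ℝ)) := subset_convexHull _ _ (by simp)
  have hb : b ∈ convexHull ℝ ({a, b, c, d} : Set (ℝ × ℝ)) := subset_convexHull _ _ (by simp)
  have hc : c ∈ convexHull ℝ ({a, b, c, d} : Set (ℝ × ℝ)) := subset_convexHull _ _ (by simp)
  have hd : d ∈ convexHull ℝ ({a, b, c, d} : Set (ℝ × ℝ)) := subset_convexHull _ _ (by simp)
  rcases region_cover hF h1 h2 h3 h4 with h | h
  · exact Tc_sub (convex_convexHull ℝ _) ha hb hc h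
  · exact Tc_sub (convex_convexHull ℝ _) ha hc hd h

theorem left_convex (a b : ℝ × ℝ) : Convex ℝ {x | 0 ≤ br a b x} := by
  have : {x | 0 ≤ br a b x} = {z : ℝ × ℝ | (b.2 - a.2) * z.1 + (-(b.1 - a.1)) * z.2
      ≤ (b.2 - a.2) * a.1 - (b.1 - a.1) * a.2} := by
    ext x
    simp only [mem_ofPred_eq, br]
    constructor <;> intro h <;> linarith
  rw [this]; exact half_convex _ _ _

theorem hull_vol {a b c d : ℝ × ℝ} (hF : 0 < Fa a b c d) (h1 : 0 ≤ br a b c) (h2 : 0 ≤ br b c d)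
    (h3 : 0 ≤ br c d a) (h4 : 0 ≤ br d a b) :
    volume (convexHull ℝ ({a, b, c, d} : Set (ℝ × ℝ))) ≤ ENNReal.ofReal (Fa a b c d) := by
  have z1 : ∀ a b : ℝ × ℝ, br a b a = 0 := by intro a b; unfold br; ring
  have z2 : ∀ a b : ℝ × ℝ, br a b b = 0 := by intro a b; unfold br; ring
  have rot : ∀ a b c : ℝ × ℝ, br a b c = br b c a := by intro a b c; unfold br; ring
  have hsub : convexHull ℝ ({a, b, c, d} : Set (ℝ × ℝ)) ⊆
      ({x | 0 ≤ br a b x} ∩ {x | 0 ≤ br b c x}) ∩ ({x | 0 ≤ br c d x} ∩ {x | 0 ≤ br d a x}) := by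
    apply convexHull_min
    · rintro x (rfl | rfl | rfl | rfl)
      · exact ⟨⟨(z1 _ _).ge, by show 0 ≤ br b c x; rw [← rot]; exact h1⟩, h3, (z2 _ _).ge⟩
      · exact ⟨⟨(z2 _ _).ge, (z1 _ _).ge⟩, by show 0 ≤ br c d x; rw [← rot]; exact h2, h4⟩
      · exact ⟨⟨h1, (z2 _ _).ge⟩, (z1 _ _).ge, by show 0 ≤ br d a x; rw [← rot]; exact h3⟩
      · exact ⟨⟨by show 0 ≤ br a b x; rw [← rot]; exact h4, h2⟩, (z2 _ _).ge, (z1 _ _).ge⟩
    · exact ((left_convex _ _).inter (left_convex _ _)).inter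
        ((left_convex _ _).inter (left_convex _ _))
  have hsub2 : convexHull ℝ ({a, b, c, d} : Set (ℝ × ℝ)) ⊆ Tc a b c ∪ Tc a c d := by
    intro x hx
    obtain ⟨⟨k1, k2⟩, k3, k4⟩ := hsub hx
    exact region_cover hF k1 k2 k3 k4
  have h5 : 0 ≤ br a c d := by
    have : br a c d = br c d a := by unfold br; ring
    rw [this]; exact h3
  calc volume (convexHull ℝ ({a, b, c, d} : Set (ℝ × ℝ))) ≤ volume (Tc a b c ∪ Tc a c d) :=
        measure_mono hsub2
    _ ≤ volume (Tc a b c) + volume (Tc a c d) := measure_union_le _ _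
    _ ≤ ENNReal.ofReal (br a b c / 2) + ENNReal.ofReal (br a c d / 2) := by
        have k1 := vol_Tc a b c
        have k2 := vol_Tc a c d
        have e1 : |(b.1 - a.1) * (c.2 - a.2) - (b.2 - a.2) * (c.1 - a.1)| = br a b c :=
          abs_of_nonneg h1
        have e2 : |(c.1 - a.1) * (d.2 - a.2) - (c.2 - a.2) * (d.1 - a.1)| = br a c d :=
          abs_of_nonneg h5
        rw [e1] at k1
        rw [e2] at k2
        exact add_le_add k1 k2
    _ = ENNReal.ofReal (Fa a b c d) := by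
        rw [← ENNReal.ofReal_add (by positivity) (by positivity)]
        congr 1
        unfold br Fa; ring

/-- inverse of an affine map. -/
noncomputable def affInv (a u w : ℝ × ℝ) (z : ℝ × ℝ) : ℝ × ℝ :=
  (((z.1 - a.1) * w.2 - (z.2 - a.2) * w.1) / (u.1 * w.2 - u.2 * w.1),
    (u.1 * (z.2 - a.2) - u.2 * (z.1 - a.1)) / (u.1 * w.2 - u.2 * w.1))

theorem aff_affInv {a u w : ℝ × ℝ} (hD : u.1 * w.2 - u.2 * w.1 ≠ 0) (z : ℝ × ℝ) :
    aff a u w (affInv a u w z) = z := by
  apply Prod.ext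
  · simp only [aff, affInv]
    rw [mul_div_assoc', mul_div_assoc', ← add_div]
    have : u.1 * ((z.1 - a.1) * w.2 - (z.2 - a.2) * w.1) + w.1 * (u.1 * (z.2 - a.2) - u.2 * (z.1 - a.1))
      = (z.1 - a.1) * (u.1 * w.2 - u.2 * w.1) := by ring
    rw [this, mul_div_assoc, div_self hD]; ring
  · simp only [aff, affInv]
    rw [mul_div_assoc', mul_div_assoc', ← add_div]
    have : u.2 * ((z.1 - a.1) * w.2 - (z.2 - a.2) * w.1) + w.2 * (u.1 * (z.2 - a.2) - u.2 * (z.1 - a.1))
      = (z.2 - a.2) * (u.1 * w.2 - u.2 * w.1) := by ring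
    rw [this, mul_div_assoc, div_self hD]; ring

theorem affInv_aff {a u w : ℝ × ℝ} (hD : u.1 * w.2 - u.2 * w.1 ≠ 0) (p : ℝ × ℝ) :
    affInv a u w (aff a u w p) = p := by
  apply Prod.ext
  · simp only [aff, affInv]
    rw [div_eq_iff hD]; ring
  · simp only [aff, affInv]
    rw [div_eq_iff hD]; ring

theorem aff_comb (a u w : ℝ × ℝ) {s t : ℝ} (hst : s + t = 1) (x y : ℝ × ℝ) :
    aff a u w (s • x + t • y) = s • aff a u w x + t • aff a u w y := by
  have : t = 1 - s := by linarith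
  subst this
  apply Prod.ext
  · simp only [aff, Prod.fst_add, Prod.smul_fst, smul_eq_mul, Prod.snd_add, Prod.smul_snd]; ring
  · simp only [aff, Prod.fst_add, Prod.smul_fst, smul_eq_mul, Prod.snd_add, Prod.smul_snd]; ring

/-- the numerical structure of a normalised circumscribed quadrilateral. -/
theorem cross_box {K : Set (ℝ × ℝ)} {s t : ℝ}
    (hC : Circ K (s, t) (-s, -t) (s + 2, t) (-s, -t + 2))
    (h00 : ((0 : ℝ), (0 : ℝ)) ∈ K) (h10 : ((1 : ℝ), (0 : ℝ)) ∈ K)
    (h01 : ((0 : ℝ), (1 : ℝ)) ∈ K) (h11 : ((1 : ℝ), (1 : ℝ)) ∈ K) :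
    (∀ z ∈ K, (z.1 < 0 ∨ 1 < z.1) → 0 ≤ z.2 ∧ z.2 ≤ 1) ∧
    (∀ z ∈ K, -1 ≤ z.1 ∧ z.1 ≤ 2 ∧ -1 ≤ z.2 ∧ z.2 ≤ 2) := by
  have key : ∀ z ∈ K, 0 ≤ t * z.1 - s * z.2 ∧ 0 ≤ t * (1 - z.1) + (1 + s) * z.2 ∧
      0 ≤ (1 - t) * (1 - z.1) + (1 + s) * (1 - z.2) ∧ 0 ≤ (1 - t) * z.1 - s * (1 - z.2) := by
    intro z hz
    obtain ⟨h1, h2, h3, h4⟩ := hC z hz
    unfold br at h1 h2 h3 h4
    simp only at h1 h2 h3 h4
    refine ⟨by linarith, by linarith, by linarith, by linarith⟩
  obtain ⟨a1, a2, a3, a4⟩ := key _ h00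
  obtain ⟨b1, b2, b3, b4⟩ := key _ h10
  obtain ⟨c1, c2, c3, c4⟩ := key _ h01
  obtain ⟨d1, d2, d3, d4⟩ := key _ h11
  simp only at a1 a2 a3 a4 b1 b2 b3 b4 c1 c2 c3 c4 d1 d2 d3 d4
  have t0 : 0 ≤ t := by linarith
  have t1 : t ≤ 1 := by linarith
  have s0 : s ≤ 0 := by linarith
  have s1 : -1 ≤ s := by linarith
  constructor
  · intro z hz h
    obtain ⟨k1, k2, k3, k4⟩ := key z hz
    rcases h with h | h
    · have p1 : 0 ≤ t * (-z.1) := mul_nonneg t0 (by linarith)
      have p2 : 0 ≤ (1 - t) * (-z.1) := mul_nonneg (by linarith) (by linarith)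
      have hs : 0 < -s := by linarith
      constructor
      · by_contra hcon
        push Not at hcon
        have := mul_pos hs (neg_pos.mpr hcon)
        linarith
      · by_contra hcon
        push Not at hcon
        have := mul_pos hs (sub_pos.mpr hcon)
        linarith
    · have p1 : 0 ≤ t * (z.1 - 1) := mul_nonneg t0 (by linarith)
      have p2 : 0 ≤ (1 - t) * (z.1 - 1) := mul_nonneg (by linarith) (by linarith)
      have hs : 0 < 1 + s := by linarith
      constructor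
      · by_contra hcon
        push Not at hcon
        have := mul_pos hs (neg_pos.mpr hcon)
        linarith
      · by_contra hcon
        push Not at hcon
        have := mul_pos hs (sub_pos.mpr hcon)
        linarith
  · intro z hz
    obtain ⟨k1, k2, k3, k4⟩ := key z hz
    refine ⟨by linarith, by linarith, by linarith, by linarith⟩

/-- main theorem for compact convex bodies. -/
theorem compact_case {η : ℝ} (hη : 0 < η) (hgap : ∀ K : Set (ℝ × ℝ), NormK K →
    ENNReal.ofReal (Real.sqrt 2 + η) ≤ volume K)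
    {K : Set (ℝ × ℝ)} (hK : IsCompact K) (hconv : Convex ℝ K) {o : ℝ × ℝ} {r : ℝ}
    (hB : HasBall K o r) (hvol : volume K = 1) :
    ∃ a b c d : ℝ × ℝ, K ⊆ convexHull ℝ {a, b, c, d} ∧
      volume (convexHull ℝ ({a, b, c, d} : Set (ℝ × ℝ))) ≤
        ENNReal.ofReal (2 / (Real.sqrt 2 + η)) := by
  obtain ⟨a, b, c, d, hM, mab, mbc, mcd, mda⟩ := exists_mini_mid hK hconv hB
  obtain ⟨hC, hF, hmin⟩ := hM
  refine ⟨a, b, c, d, fun x hx => ?_, ?_⟩
  · obtain ⟨h1, h2, h3, h4⟩ := hC x hx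
    exact region_hull hF h1 h2 h3 h4
  -- convex position
  have k1 : 0 ≤ br a b c := by
    have := (hC _ mbc).1
    have e : br a b ((b.1 + c.1) / 2, (b.2 + c.2) / 2) = br a b c / 2 := by unfold br; ring
    rw [e] at this; linarith
  have k2 : 0 ≤ br b c d := by
    have := (hC _ mcd).2.1
    have e : br b c ((c.1 + d.1) / 2, (c.2 + d.2) / 2) = br b c d / 2 := by unfold br; ring
    rw [e] at this; linarith
  have k3 : 0 ≤ br c d a := by
    have := (hC _ mda).2.2.1
    have e : br c d ((d.1 + a.1) / 2, (d.2 + a.2) / 2) = br c d a / 2 := by unfold br; ring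
    rw [e] at this; linarith
  have k4 : 0 ≤ br d a b := by
    have := (hC _ mab).2.2.2
    have e : br d a ((a.1 + b.1) / 2, (a.2 + b.2) / 2) = br d a b / 2 := by unfold br; ring
    rw [e] at this; linarith
  refine (hull_vol hF k1 k2 k3 k4).trans (ENNReal.ofReal_le_ofReal ?_)
  -- normalisation
  obtain ⟨m, hm⟩ : ∃ m : ℝ × ℝ, m = ((a.1 + b.1) / 2, (a.2 + b.2) / 2) := ⟨_, rfl⟩
  obtain ⟨u, hu⟩ : ∃ u : ℝ × ℝ, u = ((c.1 - a.1) / 2, (c.2 - a.2) / 2) := ⟨_, rfl⟩
  obtain ⟨w, hw⟩ : ∃ w : ℝ × ℝ, w = ((d.1 - b.1) / 2, (d.2 - b.2) / 2) := ⟨_, rfl⟩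
  have hD : u.1 * w.2 - u.2 * w.1 = Fa a b c d / 2 := by
    rw [hu, hw]; unfold Fa; ring
  have hDpos : 0 < u.1 * w.2 - u.2 * w.1 := by rw [hD]; linarith
  set φ := aff m u w with hφ
  set ψ := affInv m u w with hψ
  have hφψ : ∀ z, φ (ψ z) = z := fun z => aff_affInv hDpos.ne' z
  have hψφ : ∀ p, ψ (φ p) = p := fun p => affInv_aff hDpos.ne' p
  have hbr : ∀ p q x : ℝ × ℝ, br (φ p) (φ q) (φ x) = (u.1 * w.2 - u.2 * w.1) * br p q x := by
    intro p q x; rw [hφ]; unfold br aff; ring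
  have hFφ : ∀ p q x y : ℝ × ℝ, Fa (φ p) (φ q) (φ x) (φ y)
      = (u.1 * w.2 - u.2 * w.1) * Fa p q x y := by
    intro p q x y; rw [hφ]; unfold Fa aff; ring
  have hψc : Continuous ψ := by
    rw [hψ]; unfold affInv; fun_prop
  set K' : Set (ℝ × ℝ) := ψ '' K with hK'
  have hmem : ∀ p, p ∈ K' ↔ φ p ∈ K := by
    intro p
    constructor
    · rintro ⟨z, hz, rfl⟩
      rw [hφψ]; exact hz
    · intro h
      exact ⟨φ p, h, hψφ p⟩
  have hφK' : φ '' K' = K := by
    ext z
    constructor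
    · rintro ⟨p, hp, rfl⟩
      exact (hmem p).mp hp
    · intro hz
      exact ⟨ψ z, ⟨z, hz, rfl⟩, hφψ z⟩
  have h00 : ((0 : ℝ), (0 : ℝ)) ∈ K' := by
    rw [hmem]
    convert mab using 1
    apply Prod.ext <;> simp only [hφ, aff, hm] <;> ring
  have h10 : ((1 : ℝ), (0 : ℝ)) ∈ K' := by
    rw [hmem]
    convert mbc using 1
    apply Prod.ext <;> simp only [hφ, aff, hm, hu] <;> ring
  have h01 : ((0 : ℝ), (1 : ℝ)) ∈ K' := by
    rw [hmem]
    convert mda using 1
    apply Prod.ext <;> simp only [hφ, aff, hm, hw] <;> ring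
  have h11 : ((1 : ℝ), (1 : ℝ)) ∈ K' := by
    rw [hmem]
    convert mcd using 1
    apply Prod.ext <;> simp only [hφ, aff, hm, hu, hw] <;> ring
  have hC' : Circ K' (ψ a) (ψ b) (ψ c) (ψ d) := by
    intro x hx
    obtain ⟨q1, q2, q3, q4⟩ := hC _ ((hmem x).mp hx)
    have e : ∀ p q : ℝ × ℝ, 0 ≤ br p q (φ x) → 0 ≤ br (ψ p) (ψ q) x := by
      intro p q h
      have h2 := hbr (ψ p) (ψ q) x
      rw [hφψ, hφψ] at h2
      rw [h2] at h
      exact (mul_nonneg_iff_of_pos_left hDpos).mp h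
    exact ⟨e _ _ q1, e _ _ q2, e _ _ q3, e _ _ q4⟩
  obtain ⟨s, t, hst⟩ : ∃ s t : ℝ, ψ a = (s, t) := ⟨(ψ a).1, (ψ a).2, rfl⟩
  have hae : a = φ (s, t) := by rw [← hst, hφψ]
  have hbe : ψ b = (-s, -t) := by
    have : b = φ (-s, -t) := by
      have ea1 : a.1 = (φ (s, t)).1 := by rw [← hae]
      have ea2 : a.2 = (φ (s, t)).2 := by rw [← hae]
      simp only [hφ, aff] at ea1 ea2
      have em1 : m.1 = (a.1 + b.1) / 2 := by rw [hm]
      have em2 : m.2 = (a.2 + b.2) / 2 := by rw [hm]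
      apply Prod.ext
      · simp only [hφ, aff]; linarith
      · simp only [hφ, aff]; linarith
    rw [this, hψφ]
  have hce : ψ c = (s + 2, t) := by
    have : c = φ (s + 2, t) := by
      have ea1 : a.1 = (φ (s, t)).1 := by rw [← hae]
      have ea2 : a.2 = (φ (s, t)).2 := by rw [← hae]
      simp only [hφ, aff] at ea1 ea2
      have em1 : u.1 = (c.1 - a.1) / 2 := by rw [hu]
      have em2 : u.2 = (c.2 - a.2) / 2 := by rw [hu]
      apply Prod.ext
      · simp only [hφ, aff]; linarith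
      · simp only [hφ, aff]; linarith
    rw [this, hψφ]
  have hde : ψ d = (-s, -t + 2) := by
    have : d = φ (-s, -t + 2) := by
      have ea1 : b.1 = (φ (-s, -t)).1 := by rw [← hbe, hφψ]
      have ea2 : b.2 = (φ (-s, -t)).2 := by rw [← hbe, hφψ]
      simp only [hφ, aff] at ea1 ea2
      have em1 : w.1 = (d.1 - b.1) / 2 := by rw [hw]
      have em2 : w.2 = (d.2 - b.2) / 2 := by rw [hw]
      apply Prod.ext
      · simp only [hφ, aff]; linarith
      · simp only [hφ, aff]; linarith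
    rw [this, hψφ]
  rw [hst, hbe, hce, hde] at hC'
  obtain ⟨hcross, hbox⟩ := cross_box hC' h00 h10 h01 h11
  have hN : NormK K' := by
    refine ⟨hK.image hψc, ?_, h00, h10, h01, h11, hcross, hbox, ?_⟩
    · intro x hx y hy s' t' hs' ht' hst'
      rw [hmem] at hx hy ⊢
      rw [hφ, aff_comb m u w hst']
      exact hconv hx hy hs' ht' hst'
    · intro a' b' c' d' hCirc hF'
      have hCφ : Circ K (φ a') (φ b') (φ c') (φ d') := by
        intro z hz
        obtain ⟨q1, q2, q3, q4⟩ := hCirc (ψ z) ⟨z, hz, rfl⟩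
        have e : ∀ p q : ℝ × ℝ, 0 ≤ br p q (ψ z) → 0 ≤ br (φ p) (φ q) z := by
          intro p q h
          have h2 := hbr p q (ψ z)
          rw [hφψ] at h2
          rw [h2]
          exact mul_nonneg hDpos.le h
        exact ⟨e _ _ q1, e _ _ q2, e _ _ q3, e _ _ q4⟩
      have := hmin _ _ _ _ hCφ (by rw [hFφ]; positivity)
      rw [hFφ] at this
      have e : Fa a b c d = 2 * (u.1 * w.2 - u.2 * w.1) := by rw [hD]; ring
      rw [e, mul_comm (2 : ℝ)] at this
      exact le_of_mul_le_mul_left this hDpos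
  have hg := hgap K' hN
  have hv : volume K = ENNReal.ofReal (u.1 * w.2 - u.2 * w.1) * volume K' := by
    conv_lhs => rw [← hφK']
    rw [hφ, vol_aff, abs_of_pos hDpos]
  have hs2 : 0 ≤ Real.sqrt 2 := Real.sqrt_nonneg 2
  have hfin : ENNReal.ofReal ((Fa a b c d / 2) * (Real.sqrt 2 + η)) ≤ ENNReal.ofReal 1 := by
    rw [ENNReal.ofReal_mul (by positivity), ENNReal.ofReal_one, ← hvol, hv, hD]
    exact mul_le_mul_right hg _
  have := (ENNReal.ofReal_le_ofReal_iff zero_le_one).mp hfin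
  rw [le_div_iff₀ (by positivity)]
  linarith

/-- a convex set of area one has nonempty interior. -/
theorem int_nonempty {K : Set (ℝ × ℝ)} (hconv : Convex ℝ K) (hvol : volume K = 1) :
    (interior K).Nonempty := by
  by_contra hcon
  rw [not_nonempty_iff_eq_empty] at hcon
  have h1 : K ⊆ frontier K := by
    intro x hx
    rw [frontier, hcon, sdiff_empty]
    exact subset_closure hx
  have h2 := measure_mono (μ := volume) h1
  rw [hconv.addHaar_frontier volume, hvol] at h2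
  exact absurd h2 (by simp)

theorem has_ball {K : Set (ℝ × ℝ)} (h : (interior K).Nonempty) : ∃ o r, HasBall K o r := by
  obtain ⟨o, ho⟩ := h
  obtain ⟨ε, hε, hb⟩ := Metric.isOpen_iff.mp isOpen_interior o ho
  refine ⟨o, ε / 2, by positivity, fun x h1 h2 => interior_subset (hb ?_)⟩
  rw [Metric.mem_ball, Prod.dist_eq, max_lt_iff, Real.dist_eq, Real.dist_eq]
  exact ⟨by linarith, by linarith⟩

theorem coord_bound {K : Set (ℝ × ℝ)} (hconv : Convex ℝ K) (hvol : volume K = 1) {o : ℝ × ℝ}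
    {r : ℝ} (hB : HasBall K o r) {x : ℝ × ℝ} (hx : x ∈ K) :
    |x.1 - o.1| ≤ 1 / r ∧ |x.2 - o.2| ≤ 1 / r := by
  obtain ⟨hr, hB⟩ := hB
  have a1 : ((o.1 + r, o.2) : ℝ × ℝ) ∈ K := hB _ (by simp [abs_of_pos hr]) (by simp [hr.le])
  have a2 : ((o.1 - r, o.2) : ℝ × ℝ) ∈ K := hB _ (by
    simp only [sub_sub_cancel_left, abs_neg]; rw [abs_of_pos hr]) (by simp [hr.le])
  have a3 : ((o.1, o.2 + r) : ℝ × ℝ) ∈ K := hB _ (by simp [hr.le]) (by simp [abs_of_pos hr])
  have a4 : ((o.1, o.2 - r) : ℝ × ℝ) ∈ K := hB _ (by simp [hr.le]) (by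
    simp only [sub_sub_cancel_left, abs_neg]; rw [abs_of_pos hr])
  have v1 := measure_mono (μ := volume) (T_sub hconv a1 a2 hx)
  have v2 := measure_mono (μ := volume) (T_sub hconv a3 a4 hx)
  rw [vol_T, hvol, ← ENNReal.ofReal_one, ENNReal.ofReal_le_ofReal_iff zero_le_one] at v1 v2
  constructor
  · rw [le_div_iff₀ hr]
    have e : (o.1 - o.1) * (x.2 - (o.2 + r)) - (o.2 - r - (o.2 + r)) * (x.1 - o.1)
      = 2 * r * (x.1 - o.1) := by ring
    simp only at v2
    rw [e, abs_mul, abs_of_pos (by positivity : 0 < 2 * r)] at v2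
    linarith
  · rw [le_div_iff₀ hr]
    have e : (o.1 - r - (o.1 + r)) * (x.2 - o.2) - (o.2 - o.2) * (x.1 - (o.1 + r))
      = -(2 * r * (x.2 - o.2)) := by ring
    simp only at v1
    rw [e, abs_neg, abs_mul, abs_of_pos (by positivity : 0 < 2 * r)] at v1
    linarith

theorem main : ∃ c : ℝ, c < Real.sqrt 2 ∧ ∀ K : Set (ℝ × ℝ), Convex ℝ K → volume K = 1 →
    ∃ p q r s : ℝ × ℝ, K ⊆ convexHull ℝ {p, q, r, s} ∧
      volume (convexHull ℝ ({p, q, r, s} : Set (ℝ × ℝ))) ≤ ENNReal.ofReal c := by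
  obtain ⟨η, hη, hgap⟩ := gap
  have hs2 : 0 < Real.sqrt 2 := Real.sqrt_pos.mpr (by norm_num)
  have hs2sq : Real.sqrt 2 * Real.sqrt 2 = 2 := Real.mul_self_sqrt (by norm_num)
  refine ⟨2 / (Real.sqrt 2 + η), ?_, ?_⟩
  · rw [div_lt_iff₀ (by positivity)]
    nlinarith
  intro K hconv hvol
  have hint := int_nonempty hconv hvol
  obtain ⟨o, r, hB⟩ := has_ball hint
  have hbdd : Bornology.IsBounded (closure K) := by
    apply Bornology.IsBounded.closure
    rw [isBounded_iff_forall_norm_le]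
    refine ⟨max (|o.1| + 1 / r) (|o.2| + 1 / r), fun x hx => ?_⟩
    obtain ⟨h1, h2⟩ := coord_bound hconv hvol hB hx
    rw [Prod.norm_def]
    apply max_le_max
    · have : |x.1| ≤ |o.1| + |x.1 - o.1| := by
        have := abs_add_le o.1 (x.1 - o.1)
        rwa [show o.1 + (x.1 - o.1) = x.1 by ring] at this
      show |x.1| ≤ _
      linarith
    · have : |x.2| ≤ |o.2| + |x.2 - o.2| := by
        have := abs_add_le o.2 (x.2 - o.2)
        rwa [show o.2 + (x.2 - o.2) = x.2 by ring] at this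
      show |x.2| ≤ _
      linarith
  have hcomp : IsCompact (closure K) := Metric.isCompact_of_isClosed_isBounded isClosed_closure hbdd
  have hcv : volume (closure K) = 1 := by
    apply le_antisymm
    · rw [closure_eq_self_union_frontier]
      refine (measure_union_le _ _).trans ?_
      rw [hconv.addHaar_frontier volume, hvol, add_zero]
    · rw [← hvol]; exact measure_mono subset_closure
  have hB' : HasBall (closure K) o r := ⟨hB.1, fun x h1 h2 => subset_closure (hB.2 x h1 h2)⟩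
  obtain ⟨a, b, c, d, h1, h2⟩ := compact_case hη hgap hcomp hconv.closure hB' hcv
  exact ⟨a, b, c, d, subset_closure.trans h1, h2⟩

end Pool.Agent.D0H87.CQ
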